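import Mathlib

/-!
# MP_17cb1b_an, Q1: four-dimensional complements of covering domains in `ℂℙ³`

Q1 asks whether, for every domain `D ⊂ ℂℙ³` covering a compact complex threefold whose complement
`Λ` is locally a union of embedded real four-dimensional submanifolds (sheets), each component of
`Λ` is either a complex hypersurface or a CR submanifold of CR dimension one. The answer is no.

Write points of `ℂℙ³` as `[v : w]` with `v, w ∈ ℂ²` and let `D = {[v : w] : v ∧ ar w ≠ 0}`.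
(This is the twistor space of `S⁴ ∖ S²`.) Its complement `Λ = {v ∧ ar w = 0}` is a compact
connected embedded real analytic four-dimensional submanifold of `ℂℙ³`. So it has a single sheet
at each point and a single component, `Λ` itself. Its CR dimension is `2` at the points of the
two lines `v = 0` and `w = 0` and `1` at all its other points; we verify it at one point of each
kind. The group `SL₂(ℂ)` acts on `D` by `g ⊕ ar g`, and the group of elements of reduced norm one
congruent to `1` modulo `3` in the quaternion order `ℤ[i]⟨1, I, J, IJ⟩`, `I² = 2`, `J² = 5`, acts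
freely, properly discontinuously and with compact quotient on `D`.
-/

set_option autoImplicit false

namespace Pool.Agent.Results.MP_17cb1b_an.CRJump

open Complex Projectivization MeasureTheory
open scoped LinearAlgebra.Projectivization ComplexConjugate ContDiff

/-! ### Definitions -/

/-- Complex projective three-space `ℂℙ³`. -/
abbrev CP3 : Type := ℙ ℂ (Fin 4 → ℂ)

/-- `ℂℙ³` carries the quotient topology of `ℂ⁴ ∖ {0}`. -/
instance : TopologicalSpace CP3 :=
  inferInstanceAs (TopologicalSpace (Quotient (projectivizationSetoid ℂ (Fin 4 → ℂ))))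

/-- The cone over `S ⊆ ℂℙ³`: the preimage of `S` in `ℂ⁴ ∖ {0}`. -/
def cone (S : Set CP3) : Set (Fin 4 → ℂ) := {z | ∃ hz : z ≠ 0, mk ℂ z hz ∈ S}

/-- A self-map `F` of `D ⊆ ℂℙ³` is holomorphic: in homogeneous coordinates it is locally given by
holomorphic functions (without common zeros). -/
def IsHolomorphicSelfMap (D : Set CP3) (F : D → D) : Prop :=
  ∀ z ∈ cone D, ∃ U : Set (Fin 4 → ℂ), IsOpen U ∧ z ∈ U ∧
    ∃ G : (Fin 4 → ℂ) → (Fin 4 → ℂ), DifferentiableOn ℂ G U ∧
      ∀ y ∈ U, ∃ (hy : y ≠ 0) (hyD : mk ℂ y hy ∈ D) (hG : G y ≠ 0),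
        ((F ⟨mk ℂ y hy, hyD⟩ : D) : CP3) = mk ℂ (G y) hG

/-- `D ⊆ ℂℙ³` covers a compact complex threefold: there is a group `Γ` of biholomorphic self-maps
of `D` (a group of bijections of `D` all of whose elements, hence also all of whose inverses, are
holomorphic) which acts freely and properly discontinuously on `D`, and whose quotient `D/Γ` (the
complex threefold covered by `D`) is compact (and Hausdorff). -/
def CoversCompactThreefold (D : Set CP3) : Prop :=
  ∃ Γ : Subgroup (Equiv.Perm D),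
    (∀ γ ∈ Γ, IsHolomorphicSelfMap D γ) ∧
    (∀ γ ∈ Γ, ∀ p : D, γ p = p → γ = 1) ∧
    (∀ K : Set D, IsCompact K → {γ : Equiv.Perm D | γ ∈ Γ ∧ ((γ '' K) ∩ K).Nonempty}.Finite) ∧
    CompactSpace (Quotient (MulAction.orbitRel Γ D)) ∧
    T2Space (Quotient (MulAction.orbitRel Γ D))

/-- `S ⊆ ℂℙ³` is an embedded real four-dimensional submanifold of class `C^n` (`n = ∞`: smooth,
`n = ω`: real analytic): near every point its cone is the zero set of a `C^n` submersion to
`ℂ = ℝ²`, i.e. `S` has real codimension two in the real six-dimensional manifold `ℂℙ³`. -/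
def IsSubmanifoldOfDimFour (n : WithTop ℕ∞) (S : Set CP3) : Prop :=
  ∀ z ∈ cone S, ∃ U : Set (Fin 4 → ℂ), IsOpen U ∧ z ∈ U ∧ ∃ F : (Fin 4 → ℂ) → ℂ,
    ContDiffOn ℝ n F U ∧ (∀ y ∈ U, y ∈ cone S ↔ F y = 0) ∧
      ∀ y ∈ U ∩ cone S, Function.Surjective (fderiv ℝ F y)

/-- The tangent space at `z` of the cone over `S`: velocities of smooth curves. -/
def tangentSpace (S : Set CP3) (z : Fin 4 → ℂ) : Set (Fin 4 → ℂ) :=
  {ξ | ∃ c : ℝ → Fin 4 → ℂ, ContDiff ℝ ∞ c ∧ (∀ t, c t ∈ cone S) ∧ c 0 = z ∧ deriv c 0 = ξ}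

/-- The CR dimension of `S` at `[z]` is `k`: the complex tangent space `T ∩ iT` of the cone over
`S` at `z` is a complex vector space of dimension `k + 1`. (It is the preimage of the complex
tangent space `T_p S ∩ J T_p S` of `S` at `p = [z]` under the differential of the projection
`ℂ⁴ ∖ {0} → ℂℙ³`, whose kernel is the complex line `ℂ z`.) -/
def HasCRDimensionAt (S : Set CP3) (z : Fin 4 → ℂ) (k : ℕ) : Prop :=
  ∃ H : Submodule ℂ (Fin 4 → ℂ),
    (∀ ξ, ξ ∈ H ↔ ξ ∈ tangentSpace S z ∧ I • ξ ∈ tangentSpace S z) ∧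
      Module.finrank ℂ H = k + 1

/-! ### Sanity checks for the definitions -/

/-- A real analytic submanifold is smooth. -/
lemma IsSubmanifoldOfDimFour.smooth {S : Set CP3} (h : IsSubmanifoldOfDimFour ω S) :
    IsSubmanifoldOfDimFour ∞ S := by
  intro z hz
  obtain ⟨U, hU, hzU, F, hF, h1, h2⟩ := h z hz
  exact ⟨U, hU, hzU, F, hF.of_le (by simp), h1, h2⟩

/-- The CR dimension is well defined. -/
lemma HasCRDimensionAt.unique {S : Set CP3} {z : Fin 4 → ℂ} {k l : ℕ}
    (hk : HasCRDimensionAt S z k) (hl : HasCRDimensionAt S z l) : k = l := by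
  obtain ⟨H, hH, h1⟩ := hk
  obtain ⟨H', hH', h2⟩ := hl
  have : H = H' := by
    ext ξ
    rw [hH, hH']
  rw [this, h2] at h1
  omega

/-! ### The quaternion order -/

/-- `√2` and `√5` as complex numbers. -/
noncomputable def s2 : ℂ := ((√2 : ℝ) : ℂ)
noncomputable def s5 : ℂ := ((√5 : ℝ) : ℂ)

lemma s2_sq : s2 * s2 = 2 := by
  unfold s2
  rw [← Complex.ofReal_mul, Real.mul_self_sqrt (by norm_num)]
  norm_num

lemma s5_sq : s5 * s5 = 5 := by
  unfold s5
  rw [← Complex.ofReal_mul, Real.mul_self_sqrt (by norm_num)]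
  norm_num

/-- The quaternion `x₀ + x₁ I + x₂ J + x₃ IJ` with `I² = 2`, `J² = 5`, as a complex matrix. -/
noncomputable def Phi (x : Fin 4 → ℂ) : Matrix (Fin 2) (Fin 2) ℂ :=
  !![x 0 + x 1 * s2, s5 * (x 2 + x 3 * s2); s5 * (x 2 - x 3 * s2), x 0 - x 1 * s2]

lemma Phi_add (x y : Fin 4 → ℂ) : Phi (x + y) = Phi x + Phi y := by
  ext i j
  fin_cases i <;> fin_cases j <;> simp [Phi] <;> ring

lemma Phi_smul (c : ℂ) (x : Fin 4 → ℂ) : Phi (c • x) = c • Phi x := by
  ext i j
  fin_cases i <;> fin_cases j <;> simp [Phi] <;> ring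

/-- quaternion multiplication -/
def qmul {R : Type*} [CommRing R] (x y : Fin 4 → R) : Fin 4 → R :=
  ![x 0 * y 0 + 2 * x 1 * y 1 + 5 * x 2 * y 2 - 10 * x 3 * y 3,
    x 0 * y 1 + x 1 * y 0 - 5 * x 2 * y 3 + 5 * x 3 * y 2,
    x 0 * y 2 + x 2 * y 0 + 2 * x 1 * y 3 - 2 * x 3 * y 1,
    x 0 * y 3 + x 3 * y 0 + x 1 * y 2 - x 2 * y 1]

/-- quaternion conjugation -/
def qconj {R : Type*} [CommRing R] (x : Fin 4 → R) : Fin 4 → R := ![x 0, - x 1, - x 2, - x 3]

/-- reduced norm -/
def nrd {R : Type*} [CommRing R] (x : Fin 4 → R) : R :=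
  x 0 ^ 2 - 2 * x 1 ^ 2 - 5 * x 2 ^ 2 + 10 * x 3 ^ 2

/-- coordinatewise embedding -/
noncomputable def emb (x : Fin 4 → GaussianInt) : Fin 4 → ℂ := fun k => GaussianInt.toComplex (x k)

lemma Phi_qmul (x y : Fin 4 → ℂ) : Phi (qmul x y) = Phi x * Phi y := by
  have h2 := s2_sq
  have h5 := s5_sq
  ext i j
  fin_cases i <;> fin_cases j <;>
    simp [Phi, qmul, Matrix.mul_apply, Fin.sum_univ_two]
  · linear_combination (-(x 1) * y 1 + 5 * x 3 * y 3) * h2 +
      (-(x 2 + x 3 * s2) * (y 2 - y 3 * s2)) * h5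
  · linear_combination (-(s5 * (x 1 * y 3 - x 3 * y 1))) * h2
  · linear_combination (-(s5 * (x 1 * y 3 - x 3 * y 1))) * h2
  · linear_combination (-(x 1) * y 1 + 5 * x 3 * y 3) * h2 +
      (-(x 2 - x 3 * s2) * (y 2 + y 3 * s2)) * h5

lemma det_Phi (x : Fin 4 → ℂ) : (Phi x).det = nrd x := by
  have h2 := s2_sq
  have h5 := s5_sq
  rw [Matrix.det_fin_two]
  simp [Phi, nrd]
  linear_combination (-(x 1) ^ 2 + 5 * (x 3) ^ 2) * h2 +
      (-(x 2 + x 3 * s2) * (x 2 - x 3 * s2)) * h5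

lemma adj_Phi (x : Fin 4 → ℂ) : (Phi x).adjugate = Phi (qconj x) := by
  rw [Matrix.adjugate_fin_two]
  ext i j
  fin_cases i <;> fin_cases j <;> simp [Phi, qconj] <;> ring

lemma toC2 : GaussianInt.toComplex 2 = 2 := map_ofNat _ 2
lemma toC5 : GaussianInt.toComplex 5 = 5 := map_ofNat _ 5
lemma toC10 : GaussianInt.toComplex 10 = 10 := map_ofNat _ 10

lemma emb_qmul (x y : Fin 4 → GaussianInt) : emb (qmul x y) = qmul (emb x) (emb y) := by
  funext k
  fin_cases k <;> simp [emb, qmul, toC2, toC5, toC10]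

lemma emb_qconj (x : Fin 4 → GaussianInt) : emb (qconj x) = qconj (emb x) := by
  funext k
  fin_cases k <;> simp [emb, qconj]

lemma emb_add (x y : Fin 4 → GaussianInt) : emb (x + y) = emb x + emb y := by
  funext k
  simp [emb]

lemma nrd_emb (x : Fin 4 → GaussianInt) : nrd (emb x) = GaussianInt.toComplex (nrd x) := by
  simp [emb, nrd, toC2, toC5, toC10]

/-! ### The reduced norm is anisotropic over `ℤ[i]` -/

/-- reduction modulo `2 + i` -/
def th : GaussianInt →+* ZMod 5 where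
  toFun z := (z.re : ZMod 5) + 3 * (z.im : ZMod 5)
  map_one' := by simp
  map_zero' := by simp
  map_mul' := by
    intro x y
    simp only [Zsqrtd.re_mul, Zsqrtd.im_mul]
    push_cast
    have : (10 : ZMod 5) = 0 := by decide
    linear_combination (-(x.im : ZMod 5) * (y.im : ZMod 5)) * this
  map_add' := by
    intro x y
    simp only [Zsqrtd.re_add, Zsqrtd.im_add]
    push_cast
    ring

lemma th_zero {z : GaussianInt} (h : th z = 0) : ∃ y : GaussianInt, z = (⟨2, 1⟩ : GaussianInt) * y := by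
  have h1 : ((z.re + 3 * z.im : ℤ) : ZMod 5) = 0 := by
    have : th z = (z.re : ZMod 5) + 3 * (z.im : ZMod 5) := rfl
    rw [← h, this]
    push_cast
    ring
  rw [ZMod.intCast_zmod_eq_zero_iff_dvd] at h1
  obtain ⟨k, hk⟩ := h1
  push_cast at hk
  -- z = a + b i, y = (2 a + b)/5 + (2 b - a)/5 i
  refine ⟨⟨2 * k - z.im, z.im - k⟩, ?_⟩
  have hre : z.re = 5 * k - 3 * z.im := by linarith
  apply Zsqrtd.ext
  · rw [Zsqrtd.re_mul]
    simp only
    linarith
  · rw [Zsqrtd.im_mul]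
    simp only
    linarith

lemma two_nonsq : ∀ a b : ZMod 5, a ^ 2 - 2 * b ^ 2 = 0 → a = 0 ∧ b = 0 := by decide

lemma zmod5 : ∀ a b : ZMod 5, a ≠ 0 → a * b = 0 → b = 0 := by decide

lemma nrd_ne_zero : ∀ n : ℕ, ∀ x : Fin 4 → GaussianInt,
    (∑ k, (x k).norm.natAbs) ≤ n → nrd x = 0 → x = 0 := by
  intro n
  induction n using Nat.strong_induction_on with
  | _ n ih =>
    intro x hx h0
    by_contra hne
    have hpi : (⟨2, 1⟩ : GaussianInt) * ⟨2, -1⟩ = 5 := by
      apply Zsqrtd.ext <;> simp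
    have hpi0 : (⟨2, 1⟩ : GaussianInt) ≠ 0 := by
      intro h
      have := congrArg Zsqrtd.re h
      simp at this
    have h5 : th 5 = 0 := by decide
    have hpib : th ⟨2, -1⟩ ≠ 0 := by decide
    -- first step
    have e1 : th (x 0) ^ 2 - 2 * th (x 1) ^ 2 = 0 := by
      have := congrArg th h0
      simp only [nrd, map_sub, map_add, map_mul, map_pow, map_zero] at this
      have h10 : th 10 = 0 := by decide
      have h2 : th 2 = 2 := by decide
      rw [h5, h10, h2] at this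
      linear_combination this
    obtain ⟨a0, a1⟩ := two_nonsq _ _ e1
    obtain ⟨y0, hy0⟩ := th_zero a0
    obtain ⟨y1, hy1⟩ := th_zero a1
    have e2 : (⟨2, 1⟩ : GaussianInt) * (y0 ^ 2 - 2 * y1 ^ 2) = ⟨2, -1⟩ * (x 2 ^ 2 - 2 * x 3 ^ 2) := by
      apply mul_left_cancel₀ hpi0
      unfold nrd at h0
      rw [hy0, hy1] at h0
      linear_combination h0 + (- x 2 ^ 2 + 2 * x 3 ^ 2) * hpi
    have e3 : th (x 2) ^ 2 - 2 * th (x 3) ^ 2 = 0 := by
      have := congrArg th e2
      have hp : th ⟨2, 1⟩ = 0 := by decide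
      have h2 : th 2 = 2 := by decide
      simp only [map_sub, map_mul, map_pow] at this
      rw [hp, zero_mul, h2] at this
      exact zmod5 _ _ hpib this.symm
    obtain ⟨a2, a3⟩ := two_nonsq _ _ e3
    obtain ⟨y2, hy2⟩ := th_zero a2
    obtain ⟨y3, hy3⟩ := th_zero a3
    let y : Fin 4 → GaussianInt := ![y0, y1, y2, y3]
    have hxy : ∀ k, x k = ⟨2, 1⟩ * y k := by
      intro k
      fin_cases k
      · exact hy0
      · exact hy1
      · exact hy2
      · exact hy3
    have hnrd : nrd y = 0 := by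
      have h1 : (⟨2, 1⟩ : GaussianInt) ^ 2 * nrd y = 0 := by
        rw [← h0]
        unfold nrd
        rw [hxy 0, hxy 1, hxy 2, hxy 3]
        ring
      exact (mul_eq_zero.mp h1).resolve_left (pow_ne_zero 2 hpi0)
    have hnorm : ∀ k, (x k).norm.natAbs = 5 * (y k).norm.natAbs := by
      intro k
      rw [hxy k, Zsqrtd.norm_mul, Int.natAbs_mul]
      rfl
    have hsum : ∑ k, (x k).norm.natAbs = 5 * ∑ k, (y k).norm.natAbs := by
      rw [Finset.mul_sum]
      exact Finset.sum_congr rfl (fun k _ => hnorm k)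
    have hpos : 0 < ∑ k, (x k).norm.natAbs := by
      obtain ⟨k, hk⟩ := Function.ne_iff.mp hne
      have : 0 < (x k).norm.natAbs := by
        rw [Int.natAbs_pos]
        intro h
        exact hk (GaussianInt.norm_eq_zero.mp h)
      exact lt_of_lt_of_le this (Finset.single_le_sum (f := fun k => (x k).norm.natAbs)
        (fun _ _ => Nat.zero_le _) (Finset.mem_univ k))
    have hy : y = 0 := ih (∑ k, (y k).norm.natAbs) (by omega) y le_rfl hnrd
    apply hne
    funext k
    rw [hxy k, hy]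
    simp

lemma anis {x : Fin 4 → GaussianInt} (hx : x ≠ 0) : nrd x ≠ 0 := fun h => hx (nrd_ne_zero _ x le_rfl h)

/-! ### Minkowski's theorem for the order -/

noncomputable def AR (h : Matrix (Fin 2) (Fin 2) ℂ) : Matrix (Fin 4) (Fin 4) ℂ :=
  !![h 0 0, h 1 0, 0, 0; h 0 1, h 1 1, 0, 0; 0, 0, h 0 0, h 1 0; 0, 0, h 0 1, h 1 1]

noncomputable def AP : Matrix (Fin 4) (Fin 4) ℂ :=
  !![1, s2, 0, 0; 0, 0, s5, s5 * s2; 0, 0, s5, -(s5 * s2); 1, -s2, 0, 0]

lemma det_AR (h : Matrix (Fin 2) (Fin 2) ℂ) : (AR h).det = h.det ^ 2 := by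
  have e : Fin.succAbove (1 : Fin 4) (2 : Fin 3) = 3 := by decide
  rw [Matrix.det_fin_two]
  simp [AR, Matrix.det_succ_row_zero, Fin.sum_univ_succ, e]
  ring

lemma det_AP : AP.det = 40 := by
  have h2 := s2_sq
  have h5 := s5_sq
  have e : Fin.succAbove (1 : Fin 4) (2 : Fin 3) = 3 := by decide
  simp [AP, Matrix.det_succ_row_zero, Fin.sum_univ_succ, e]
  linear_combination (20 : ℂ) * h2 + (4 * s2 * s2) * h5

/-- the linear map `x ↦ Phi x * h` in coordinates -/
noncomputable def TT (h : Matrix (Fin 2) (Fin 2) ℂ) : (Fin 4 → ℂ) →ₗ[ℝ] (Fin 4 → ℂ) :=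
  ((AR h * AP).toLin').restrictScalars ℝ

lemma TT_apply (h : Matrix (Fin 2) (Fin 2) ℂ) (x : Fin 4 → ℂ) :
    TT h x = ![(Phi x * h) 0 0, (Phi x * h) 0 1, (Phi x * h) 1 0, (Phi x * h) 1 1] := by
  have h1 : TT h x = (AR h * AP).mulVec x := rfl
  rw [h1, ← Matrix.mulVec_mulVec]
  funext k
  fin_cases k <;> simp [AR, AP, Phi, Matrix.mulVec, dotProduct, Fin.sum_univ_succ,
    Matrix.mul_apply] <;> ring

lemma det_TT (h : Matrix (Fin 2) (Fin 2) ℂ) (hh : h.det = 1) : LinearMap.det (TT h) = 1600 := by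
  unfold TT
  rw [LinearMap.det_restrictScalars, LinearMap.det_toLin', Matrix.det_mul, det_AR, det_AP, hh,
    Algebra.norm_complex_apply]
  norm_num [Complex.normSq_apply]

lemma minkowski : ∃ R : ℝ, 0 < R ∧ ∀ h : Matrix (Fin 2) (Fin 2) ℂ, h.det = 1 →
    ∃ x : Fin 4 → GaussianInt, x ≠ 0 ∧ ∀ i j, ‖(Phi (emb x) * h) i j‖ ≤ R := by
  let b : Module.Basis (Σ _ : Fin 4, Fin 2) ℝ (Fin 4 → ℂ) := Pi.basis (fun _ => Complex.basisOneI)
  let μ : Measure (Fin 4 → ℂ) := volume
  have hF : μ (ZSpan.fundamentalDomain b) ≠ ⊤ :=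
    (ZSpan.fundamentalDomain_isBounded b).measure_lt_top.ne
  have hB0 : μ (Metric.ball 0 1) ≠ 0 := (Metric.measure_ball_pos μ 0 one_pos).ne'
  have hB1 : μ (Metric.ball 0 1) ≠ ⊤ := Metric.isBounded_ball.measure_lt_top.ne
  set f := (μ (ZSpan.fundamentalDomain b)).toReal with hf
  set m := (μ (Metric.ball (0 : Fin 4 → ℂ) 1)).toReal with hm
  have hm0 : 0 < m := ENNReal.toReal_pos hB0 hB1
  have hf0 : 0 ≤ f := ENNReal.toReal_nonneg
  have hfin : Module.finrank ℝ (Fin 4 → ℂ) = 8 := by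
    rw [finrank_real_of_complex]
    simp
  let R : ℝ := f * 2 ^ 8 * 1600 / m + 1
  have hR1 : 1 ≤ R := by
    have : 0 ≤ f * 2 ^ 8 * 1600 / m := by positivity
    change (1 : ℝ) ≤ f * 2 ^ 8 * 1600 / m + 1
    linarith
  have hR0 : 0 < R := by linarith
  refine ⟨R, hR0, fun h hh => ?_⟩
  have hdet := det_TT h hh
  let s : Set (Fin 4 → ℂ) := (TT h) ⁻¹' (Metric.ball 0 R)
  have hμs : μ s = ENNReal.ofReal (R ^ 8 * m / 1600) := by
    have h1 : μ s = ENNReal.ofReal |(LinearMap.det (TT h))⁻¹| * μ (Metric.ball 0 R) :=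
      Measure.addHaar_preimage_linearMap μ (by rw [hdet]; norm_num) _
    rw [h1, hdet, Measure.addHaar_ball_of_pos μ _ hR0, hfin]
    have h2 : μ (Metric.ball (0 : Fin 4 → ℂ) 1) = ENNReal.ofReal m := by
      rw [hm, ENNReal.ofReal_toReal hB1]
    rw [h2, ← ENNReal.ofReal_mul (by positivity), ← ENNReal.ofReal_mul (by positivity)]
    congr 1
    rw [abs_of_pos (by norm_num)]
    ring
  have hlt : μ (ZSpan.fundamentalDomain b) * 2 ^ Module.finrank ℝ (Fin 4 → ℂ) < μ s := by
    rw [hμs, hfin]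
    have h2 : μ (ZSpan.fundamentalDomain b) = ENNReal.ofReal f := by
      rw [hf, ENNReal.ofReal_toReal hF]
    have h3 : (2 : ENNReal) ^ 8 = ENNReal.ofReal (2 ^ 8) := by
      rw [ENNReal.ofReal_pow (by norm_num)]
      norm_num
    rw [h2, h3, ← ENNReal.ofReal_mul hf0]
    apply ENNReal.ofReal_lt_ofReal_iff_of_nonneg (by positivity) |>.mpr
    rw [lt_div_iff₀ (by norm_num)]
    have h4 : R ≤ R ^ 8 := le_self_pow₀ hR1 (by norm_num)
    have h5 : f * 2 ^ 8 * 1600 < R * m := by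
      have : (f * 2 ^ 8 * 1600 / m) * m = f * 2 ^ 8 * 1600 := div_mul_cancel₀ _ hm0.ne'
      have h6 : R * m = f * 2 ^ 8 * 1600 + m := by
        change (f * 2 ^ 8 * 1600 / m + 1) * m = _
        rw [add_mul, this, one_mul]
      rw [h6]; linarith
    nlinarith
  have hsymm : ∀ x ∈ s, -x ∈ s := by
    intro x hx
    simp only [s, Set.mem_preimage, mem_ball_zero_iff, map_neg, norm_neg] at hx ⊢
    exact hx
  have hconv : Convex ℝ s := (convex_ball _ _).linear_preimage _
  have : Countable (Submodule.span ℤ (Set.range b)).toAddSubgroup :=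
    inferInstanceAs (Countable (Submodule.span ℤ (Set.range b)))
  obtain ⟨x, hx0, hxs⟩ := exists_ne_zero_mem_lattice_of_measure_mul_two_pow_lt_measure
    (ZSpan.isAddFundamentalDomain' b μ) hsymm hconv hlt
  have hxmem : (x : Fin 4 → ℂ) ∈ Submodule.span ℤ (Set.range b) := x.2
  rw [Module.Basis.mem_span_iff_repr_mem] at hxmem
  have hcoord : ∀ k : Fin 4, ∃ g : GaussianInt, GaussianInt.toComplex g = (x : Fin 4 → ℂ) k := by
    intro k
    obtain ⟨p, hp⟩ := hxmem ⟨k, 0⟩
    obtain ⟨q, hq⟩ := hxmem ⟨k, 1⟩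
    refine ⟨⟨p, q⟩, ?_⟩
    simp only [b, Pi.basis_repr, Complex.coe_basisOneI_repr, Matrix.cons_val_zero,
      Matrix.cons_val_one, algebraMap_int_eq, eq_intCast] at hp hq
    rw [GaussianInt.toComplex_def']
    apply Complex.ext
    · simp [hp]
    · simp [hq]
  choose g hg using hcoord
  have hemb : emb g = (x : Fin 4 → ℂ) := by
    funext k
    exact hg k
  refine ⟨g, ?_, ?_⟩
  · rintro rfl
    apply hx0
    apply Subtype.ext
    rw [← hemb]
    funext k
    simp [emb]
  · rw [hemb]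
    have h7 : ‖TT h x‖ < R := by
      simpa only [s, Set.mem_preimage, mem_ball_zero_iff] using hxs
    rw [TT_apply] at h7
    have h8 := fun k => (norm_le_pi_norm _ k).trans h7.le
    intro i j
    fin_cases i <;> fin_cases j
    · exact h8 0
    · exact h8 1
    · exact h8 2
    · exact h8 3

/-! ### Reduction theory -/

/-- residues of the coordinates modulo `M` -/
def res (M : ℕ) (x : Fin 4 → GaussianInt) : Fin 4 → ZMod M × ZMod M := fun k => ((x k).re, (x k).im)

lemma res_eq {M : ℕ} {x x' : Fin 4 → GaussianInt} (h : res M x = res M x') :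
    ∃ w : Fin 4 → GaussianInt, ∀ k, x k = x' k + (M : GaussianInt) * w k := by
  have h1 : ∀ k, ∃ w : GaussianInt, x k = x' k + (M : GaussianInt) * w := by
    intro k
    have h2 := congrFun h k
    simp only [res, Prod.mk.injEq] at h2
    obtain ⟨ha, hb⟩ := h2
    have ha' : ((M : ℤ)) ∣ (x k).re - (x' k).re := by
      rw [← ZMod.intCast_zmod_eq_zero_iff_dvd]
      push_cast
      rw [ha, sub_self]
    have hb' : ((M : ℤ)) ∣ (x k).im - (x' k).im := by
      rw [← ZMod.intCast_zmod_eq_zero_iff_dvd]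
      push_cast
      rw [hb, sub_self]
    obtain ⟨p, hp⟩ := ha'
    obtain ⟨q, hq⟩ := hb'
    refine ⟨⟨p, q⟩, ?_⟩
    apply Zsqrtd.ext
    · simp
      linarith
    · simp
      linarith
  choose w hw using h1
  exact ⟨w, hw⟩

lemma one_le_norm_toC {x : GaussianInt} (hx : x ≠ 0) : 1 ≤ ‖GaussianInt.toComplex x‖ := by
  have h1 : (0 : ℤ) < x.norm := GaussianInt.norm_pos.mpr hx
  have h2 : (1 : ℤ) ≤ x.norm := h1
  have h3 : (1 : ℝ) ≤ (x.norm : ℝ) := by exact_mod_cast h2
  rw [GaussianInt.intCast_real_norm, Complex.normSq_eq_norm_sq] at h3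
  have h4 := norm_nonneg (GaussianInt.toComplex x)
  nlinarith

lemma entry_mul_le (A B : Matrix (Fin 2) (Fin 2) ℂ) (a b : ℝ)
    (hA : ∀ i j, ‖A i j‖ ≤ a) (hB : ∀ i j, ‖B i j‖ ≤ b) (i j : Fin 2) :
    ‖(A * B) i j‖ ≤ 2 * (a * b) := by
  rw [Matrix.mul_apply, Fin.sum_univ_two]
  have ha : 0 ≤ a := (norm_nonneg _).trans (hA 0 0)
  calc ‖A i 0 * B 0 j + A i 1 * B 1 j‖ ≤ ‖A i 0 * B 0 j‖ + ‖A i 1 * B 1 j‖ := norm_add_le _ _
    _ = ‖A i 0‖ * ‖B 0 j‖ + ‖A i 1‖ * ‖B 1 j‖ := by rw [norm_mul, norm_mul]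
    _ ≤ a * b + a * b := by
        apply add_le_add
        · exact mul_le_mul (hA _ _) (hB _ _) (norm_nonneg _) ha
        · exact mul_le_mul (hA _ _) (hB _ _) (norm_nonneg _) ha
    _ = 2 * (a * b) := by ring

lemma det_le (A : Matrix (Fin 2) (Fin 2) ℂ) (a : ℝ) (hA : ∀ i j, ‖A i j‖ ≤ a) :
    ‖A.det‖ ≤ 2 * a ^ 2 := by
  have ha : 0 ≤ a := (norm_nonneg _).trans (hA 0 0)
  rw [Matrix.det_fin_two]
  calc ‖A 0 0 * A 1 1 - A 0 1 * A 1 0‖ ≤ ‖A 0 0 * A 1 1‖ + ‖A 0 1 * A 1 0‖ := norm_sub_le _ _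
    _ = ‖A 0 0‖ * ‖A 1 1‖ + ‖A 0 1‖ * ‖A 1 0‖ := by rw [norm_mul, norm_mul]
    _ ≤ a * a + a * a := by
        apply add_le_add
        · exact mul_le_mul (hA _ _) (hA _ _) (norm_nonneg _) ha
        · exact mul_le_mul (hA _ _) (hA _ _) (norm_nonneg _) ha
    _ = 2 * a ^ 2 := by ring

lemma red : ∃ R' : ℝ, ∀ h : Matrix (Fin 2) (Fin 2) ℂ, h.det = 1 →
    ∃ y : Fin 4 → GaussianInt, (1 + (3 : ℂ) • Phi (emb y)).det = 1 ∧
      ∀ i j, ‖((1 + (3 : ℂ) • Phi (emb y)) * h) i j‖ ≤ R' := by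
  obtain ⟨R, hR0, hR⟩ := minkowski
  obtain ⟨B, hB⟩ := exists_nat_ge (max ((2 * R ^ 2) ^ 2) (4 * R ^ 2) + 1)
  have hB1 : (2 * R ^ 2) ^ 2 ≤ B := (le_max_left _ _).trans (by linarith)
  have hB2 : 4 * R ^ 2 < B := by
    have := le_max_right ((2 * R ^ 2) ^ 2) (4 * R ^ 2)
    linarith
  let M : ℕ := 3 * B.factorial
  have hM : 0 < M := by positivity
  have : NeZero M := ⟨hM.ne'⟩
  -- good vectors
  let P : (Fin 4 → GaussianInt) → Prop := fun x => x ≠ 0 ∧ ‖GaussianInt.toComplex (nrd x)‖ ≤ 2 * R ^ 2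
  classical
  let rep : (Fin 4 → ZMod M × ZMod M) → (Fin 4 → GaussianInt) := fun c =>
    if hc : ∃ x, P x ∧ res M x = c then hc.choose else 0
  have hrep : ∀ x, P x → P (rep (res M x)) ∧ res M (rep (res M x)) = res M x := by
    intro x hx
    have hc : ∃ x', P x' ∧ res M x' = res M x := ⟨x, hx, rfl⟩
    simp only [rep, dif_pos hc]
    exact hc.choose_spec
  let bd : (Fin 4 → ZMod M × ZMod M) → ℝ := fun c =>
    ∑ i, ∑ j, ‖(Phi (emb (rep c))).adjugate i j‖
  obtain ⟨b, hb⟩ := (Set.finite_range bd).bddAbove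
  have hb' : ∀ c, bd c ≤ b := fun c => hb ⟨c, rfl⟩
  have hentry : ∀ c i j, ‖(Phi (emb (rep c))).adjugate i j‖ ≤ b := by
    intro c i j
    refine le_trans ?_ (hb' c)
    refine le_trans ?_ (Finset.single_le_sum (f := fun i => ∑ j, ‖(Phi (emb (rep c))).adjugate i j‖)
      (fun _ _ => Finset.sum_nonneg fun _ _ => norm_nonneg _) (Finset.mem_univ i))
    exact Finset.single_le_sum (f := fun j => ‖(Phi (emb (rep c))).adjugate i j‖)
      (fun _ _ => norm_nonneg _) (Finset.mem_univ j)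
  refine ⟨2 * (b * R), fun h hh => ?_⟩
  obtain ⟨x, hx0, hxR⟩ := hR h hh
  have hdetx : (Phi (emb x) * h).det = GaussianInt.toComplex (nrd x) := by
    rw [Matrix.det_mul, hh, mul_one, det_Phi, nrd_emb]
  have hPx : P x := ⟨hx0, by rw [← hdetx]; exact det_le _ R hxR⟩
  obtain ⟨⟨hx'0, hx'n⟩, hres⟩ := hrep x hPx
  set x' := rep (res M x) with hx'
  obtain ⟨w, hw⟩ := res_eq hres.symm
  -- the norms agree
  have hnu : nrd x = nrd x' := by
    have h1 : nrd x = nrd x' + (M : GaussianInt) * ((2 * x' 0 * w 0 + M * w 0 ^ 2) -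
        2 * (2 * x' 1 * w 1 + M * w 1 ^ 2) - 5 * (2 * x' 2 * w 2 + M * w 2 ^ 2) +
        10 * (2 * x' 3 * w 3 + M * w 3 ^ 2)) := by
      unfold nrd
      rw [hw 0, hw 1, hw 2, hw 3]
      ring
    set t := ((2 * x' 0 * w 0 + M * w 0 ^ 2) -
        2 * (2 * x' 1 * w 1 + M * w 1 ^ 2) - 5 * (2 * x' 2 * w 2 + M * w 2 ^ 2) +
        10 * (2 * x' 3 * w 3 + M * w 3 ^ 2))
    by_cases ht : t = 0
    · rw [h1, ht, mul_zero, add_zero]
    · exfalso
      have h2 := one_le_norm_toC ht
      have h3 : GaussianInt.toComplex (nrd x) - GaussianInt.toComplex (nrd x') =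
          (M : ℂ) * GaussianInt.toComplex t := by
        rw [h1, map_add, map_mul, map_natCast]
        ring
      have h4 : ‖GaussianInt.toComplex (nrd x) - GaussianInt.toComplex (nrd x')‖ ≤ 4 * R ^ 2 := by
        refine (norm_sub_le _ _).trans ?_
        have := hPx.2
        linarith
      rw [h3, norm_mul, Complex.norm_natCast] at h4
      have h5 : (B : ℝ) ≤ M := by
        have : B ≤ M := by
          have h6 := Nat.self_le_factorial B
          change B ≤ 3 * B.factorial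
          omega
        exact_mod_cast this
      have h6 : (M : ℝ) ≤ M * ‖GaussianInt.toComplex t‖ := by
        have : (0 : ℝ) ≤ M := Nat.cast_nonneg _
        nlinarith
      linarith
  set nu := nrd x' with hnu'
  have hnu0 : nu ≠ 0 := anis hx'0
  -- `nu` divides `B!`
  have hdvd : ∃ q : GaussianInt, (M : GaussianInt) = 3 * nu * q := by
    obtain ⟨nn, hnn⟩ : ∃ nn : ℕ, (nn : ℤ) = nu.norm := ⟨_, GaussianInt.abs_natCast_norm nu⟩
    have h1 : nn ≤ B := by
      have h2 : (nn : ℝ) ≤ B := by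
        have h4 : (nn : ℝ) = (nu.norm : ℝ) := by rw [← hnn]; push_cast; rfl
        rw [h4, GaussianInt.intCast_real_norm, Complex.normSq_eq_norm_sq]
        refine le_trans ?_ hB1
        have := norm_nonneg (GaussianInt.toComplex nu)
        exact pow_le_pow_left₀ this hx'n 2
      exact_mod_cast h2
    have h2 : 0 < nn := by
      have := GaussianInt.norm_pos.mpr hnu0
      omega
    obtain ⟨q, hq⟩ := Nat.dvd_factorial h2 h1
    refine ⟨star nu * (q : GaussianInt), ?_⟩
    have h3 : ((nu.norm : ℤ) : GaussianInt) = nu * star nu := Zsqrtd.norm_eq_mul_conj nu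
    have h5 : (nn : GaussianInt) = nu * star nu := by
      rw [← h3, ← hnn]
      push_cast
      rfl
    change ((3 * B.factorial : ℕ) : GaussianInt) = _
    rw [hq]
    push_cast
    rw [h5]
    ring
  obtain ⟨q, hq⟩ := hdvd
  let z : Fin 4 → GaussianInt := fun k => q * w k
  have hxz : ∀ k, x k = x' k + 3 * nu * z k := by
    intro k
    rw [hw k, hq]
    simp only [z]
    ring
  have hnuC : GaussianInt.toComplex nu ≠ 0 := by
    intro h0
    exact hnu0 (GaussianInt.toComplex_eq_zero.mp h0)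
  have hPhix : Phi (emb x) = Phi (emb x') + (3 * GaussianInt.toComplex nu) • Phi (emb z) := by
    rw [← Phi_smul, ← Phi_add]
    congr 1
    funext k
    simp only [emb, Pi.add_apply, Pi.smul_apply, smul_eq_mul]
    rw [hxz k]
    simp [map_ofNat]
  have hadj : (Phi (emb x')).adjugate * Phi (emb x') = (GaussianInt.toComplex nu) • 1 := by
    rw [Matrix.adjugate_mul, det_Phi, nrd_emb]
  have hkey : (Phi (emb x')).adjugate * Phi (emb x) =
      (GaussianInt.toComplex nu) • (1 + (3 : ℂ) • Phi (emb (qmul (qconj x') z))) := by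
    rw [hPhix, Matrix.mul_add, hadj, Matrix.mul_smul, adj_Phi, ← Phi_qmul, emb_qmul, emb_qconj,
      smul_add, smul_smul]
    ring_nf
  refine ⟨qmul (qconj x') z, ?_, ?_⟩
  · have h1 := congrArg Matrix.det hkey
    rw [Matrix.det_mul, Matrix.det_smul, adj_Phi, ← emb_qconj, det_Phi, det_Phi, nrd_emb, nrd_emb,
      hnu] at h1
    have h2 : nrd (qconj x') = nu := by
      rw [hnu']
      simp [nrd, qconj]
    rw [h2] at h1
    simp only [Fintype.card_fin] at h1
    have h3 : GaussianInt.toComplex nu ^ 2 ≠ 0 := pow_ne_zero 2 hnuC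
    apply mul_left_cancel₀ h3
    rw [← h1]
    ring
  · intro i j
    have h1 : (1 + (3 : ℂ) • Phi (emb (qmul (qconj x') z))) * h =
        (GaussianInt.toComplex nu)⁻¹ • ((Phi (emb x')).adjugate * (Phi (emb x) * h)) := by
      rw [← Matrix.mul_assoc, hkey, Matrix.smul_mul, smul_smul, inv_mul_cancel₀ hnuC, one_smul]
    rw [h1, Matrix.smul_apply, smul_eq_mul, norm_mul, norm_inv]
    have h2 := entry_mul_le _ _ b R (hentry (res M x)) hxR i j
    have h3 : ‖GaussianInt.toComplex nu‖⁻¹ ≤ 1 := inv_le_one_of_one_le₀ (one_le_norm_toC hnu0)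
    calc ‖GaussianInt.toComplex nu‖⁻¹ * ‖((Phi (emb x')).adjugate * (Phi (emb x) * h)) i j‖
        ≤ 1 * ‖((Phi (emb x')).adjugate * (Phi (emb x) * h)) i j‖ := by
          apply mul_le_mul_of_nonneg_right h3 (norm_nonneg _)
      _ ≤ _ := by rw [one_mul]; exact h2

/-! ### The example -/

/-- The defining function `v ∧ \bar w`, `v = (z₀, z₁)`, `w = (z₂, z₃)`. -/
noncomputable def ff (z : Fin 4 → ℂ) : ℂ := z 0 * conj (z 3) - z 1 * conj (z 2)

/-- The domain. -/
def DD : Set CP3 := {p | ff p.rep ≠ 0}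

lemma ff_smul (c : ℂ) (z : Fin 4 → ℂ) : ff (c • z) = (c * conj c) * ff z := by
  simp only [ff, Pi.smul_apply, smul_eq_mul, map_mul]
  ring

lemma mk_mem_DD {z : Fin 4 → ℂ} (hz : z ≠ 0) : mk ℂ z hz ∈ DD ↔ ff z ≠ 0 := by
  obtain ⟨a, ha⟩ := exists_smul_eq_mk_rep ℂ z hz
  have h1 : (a : ℂ) • z = (mk ℂ z hz).rep := ha
  change ff (mk ℂ z hz).rep ≠ 0 ↔ _
  rw [← h1, ff_smul]
  have h2 : (a : ℂ) ≠ 0 := a.ne_zero
  have h3 : conj (a : ℂ) ≠ 0 := (map_ne_zero _).mpr h2
  simp [h2]

lemma mem_cone_DD {z : Fin 4 → ℂ} : z ∈ cone DD ↔ ff z ≠ 0 := by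
  constructor
  · rintro ⟨hz, h⟩
    exact (mk_mem_DD hz).mp h
  · intro h
    have hz : z ≠ 0 := by
      rintro rfl
      apply h
      simp [ff]
    exact ⟨hz, (mk_mem_DD hz).mpr h⟩

lemma mem_cone_compl {z : Fin 4 → ℂ} : z ∈ cone DDᶜ ↔ z ≠ 0 ∧ ff z = 0 := by
  constructor
  · rintro ⟨hz, h⟩
    refine ⟨hz, ?_⟩
    by_contra h0
    exact h ((mk_mem_DD hz).mpr h0)
  · rintro ⟨hz, h⟩
    exact ⟨hz, fun h' => (mk_mem_DD hz).mp h' h⟩

lemma continuous_ff : Continuous ff := by
  unfold ff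
  fun_prop

lemma contDiff_ff : ContDiff ℝ ω ff := by
  unfold ff
  have h : ∀ k : Fin 4, ContDiff ℝ ω (fun z : Fin 4 → ℂ => z k) := fun k => contDiff_apply ℝ ℂ k
  have hc : ∀ k : Fin 4, ContDiff ℝ ω (fun z : Fin 4 → ℂ => conj (z k)) := fun k =>
    Complex.conjCLE.contDiff.comp (h k)
  exact ((h 0).mul (hc 3)).sub ((h 1).mul (hc 2))

lemma continuous_mk : Continuous (fun z : {z : Fin 4 → ℂ // z ≠ 0} => (mk ℂ z.1 z.2 : CP3)) :=
  continuous_quotient_mk'

/-- the derivative of `ff` at `z` in direction `ξ` -/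
noncomputable def dff (z ξ : Fin 4 → ℂ) : ℂ :=
  ξ 0 * conj (z 3) + z 0 * conj (ξ 3) - (ξ 1 * conj (z 2) + z 1 * conj (ξ 2))

lemma deriv_ff_curve (c : ℝ → Fin 4 → ℂ) (ξ : Fin 4 → ℂ) (t : ℝ) (hc : HasDerivAt c ξ t) :
    HasDerivAt (fun s => ff (c s)) (dff (c t) ξ) t := by
  have h : ∀ k : Fin 4, HasDerivAt (fun s => c s k) (ξ k) t := fun k => hasDerivAt_pi.mp hc k
  have h' : ∀ k : Fin 4, HasDerivAt (fun s => conj (c s k)) (conj (ξ k)) t := fun k =>
    (Complex.conjCLE.toContinuousLinearMap.hasFDerivAt.comp_hasDerivAt t (h k))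
  have := ((h 0).mul (h' 3)).sub ((h 1).mul (h' 2))
  exact this

lemma fderiv_ff (z ξ : Fin 4 → ℂ) : fderiv ℝ ff z ξ = dff z ξ := by
  have hd : DifferentiableAt ℝ ff z := (contDiff_ff.differentiable (by simp)).differentiableAt
  have hline : HasDerivAt (fun s : ℝ => z + s • ξ) ξ 0 := by
    have := ((hasDerivAt_id (0 : ℝ)).smul_const ξ).const_add z
    simpa using this
  have h1 := deriv_ff_curve (fun s : ℝ => z + s • ξ) ξ 0 hline
  have h2 : HasDerivAt (fun s : ℝ => ff (z + s • ξ)) (fderiv ℝ ff z ξ) 0 := by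
    have h3 : HasFDerivAt ff (fderiv ℝ ff z) (z + (0 : ℝ) • ξ) := by
      simpa using hd.hasFDerivAt
    exact h3.comp_hasDerivAt 0 hline
  have h4 := h2.unique h1
  simpa using h4

lemma isSubmanifold : IsSubmanifoldOfDimFour ω DDᶜ := by
  intro z hz
  obtain ⟨hz0, hz1⟩ := mem_cone_compl.mp hz
  refine ⟨{z | z ≠ 0}, isOpen_ne, hz0, ff, contDiff_ff.contDiffOn, ?_, ?_⟩
  · intro y hy
    rw [mem_cone_compl]
    exact ⟨fun h => h.2, fun h => ⟨hy, h⟩⟩
  · rintro y ⟨hy, _⟩ a
    -- some coordinate of `y` is nonzero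
    obtain ⟨k, hk⟩ := Function.ne_iff.mp hy
    simp only [Pi.zero_apply] at hk
    have hk' : conj (y k) ≠ 0 := (map_ne_zero _).mpr hk
    fin_cases k
    · refine ⟨![0, 0, 0, conj (a / y 0)], ?_⟩
      rw [fderiv_ff]
      simp at hk
      simp [dff, mul_div_cancel₀, hk]
    · refine ⟨![0, 0, - conj (a / y 1), 0], ?_⟩
      rw [fderiv_ff]
      simp at hk
      simp [dff, mul_div_cancel₀, hk]
    · refine ⟨![0, - (a / conj (y 2)), 0, 0], ?_⟩
      rw [fderiv_ff]
      simp at hk hk'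
      simp [dff, hk]
    · refine ⟨![a / conj (y 3), 0, 0, 0], ?_⟩
      rw [fderiv_ff]
      simp at hk hk'
      simp [dff, hk]

/-! ### CR dimensions -/

lemma tangent_dff {z ξ : Fin 4 → ℂ} (h : ξ ∈ tangentSpace DDᶜ z) : dff z ξ = 0 := by
  obtain ⟨c, hc, hmem, h0, hd⟩ := h
  have h1 : HasDerivAt c ξ 0 := by
    rw [← hd]
    exact (hc.differentiable (by simp)).differentiableAt.hasDerivAt
  have h2 := deriv_ff_curve c ξ 0 h1
  have h3 : (fun s => ff (c s)) = fun _ => (0 : ℂ) := by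
    funext s
    exact (mem_cone_compl.mp (hmem s)).2
  rw [h3, h0] at h2
  exact (h2.unique (hasDerivAt_const 0 0))

/-- the generic point -/
def z1 : Fin 4 → ℂ := ![1, 0, 1, 0]

/-- the special point -/
def z2 : Fin 4 → ℂ := ![1, 0, 0, 0]

lemma tangent_z1 (ξ : Fin 4 → ℂ) : ξ ∈ tangentSpace DDᶜ z1 ↔ ξ 1 = conj (ξ 3) := by
  constructor
  · intro h
    have := tangent_dff h
    simp [dff, z1] at this
    linear_combination -this
  · intro h
    let c : ℝ → Fin 4 → ℂ := fun t => ![exp (t * ξ 0), t * ξ 1 * exp (t * ξ 0),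
      exp (t * ξ 2), t * conj (ξ 1) * exp (t * ξ 2)]
    have hE : ∀ a : ℂ, ContDiff ℝ ∞ (fun t : ℝ => exp (t * a)) := by
      intro a
      exact ((Complex.ofRealCLM.contDiff.mul contDiff_const).cexp)
    have hL : ∀ a : ℂ, ContDiff ℝ ∞ (fun t : ℝ => (t : ℂ) * a) := by
      intro a
      exact (Complex.ofRealCLM.contDiff.mul contDiff_const)
    have hEd : ∀ a : ℂ, HasDerivAt (fun t : ℝ => exp (t * a)) a 0 := by
      intro a
      have h1 : HasDerivAt (fun t : ℝ => (t : ℂ) * a) (1 * a) 0 :=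
        (Complex.ofRealCLM.hasDerivAt (x := (0 : ℝ))).mul_const a
      have h2 := h1.cexp
      simpa using h2
    have hLd : ∀ a b : ℂ, HasDerivAt (fun t : ℝ => (t : ℂ) * a * exp (t * b)) a 0 := by
      intro a b
      have h1 : HasDerivAt (fun t : ℝ => (t : ℂ) * a) (1 * a) 0 :=
        (Complex.ofRealCLM.hasDerivAt (x := (0 : ℝ))).mul_const a
      have h2 := h1.fun_mul (hEd b)
      simpa using h2
    refine ⟨c, ?_, ?_, ?_, ?_⟩
    · rw [contDiff_pi]
      intro k
      fin_cases k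
      · exact hE _
      · exact (hL _).mul (hE _)
      · exact hE _
      · exact (hL _).mul (hE _)
    · intro t
      rw [mem_cone_compl]
      constructor
      · intro h0
        have := congrFun h0 0
        simp [c, exp_ne_zero] at this
      · simp only [ff, c]
        simp [← Complex.exp_conj]
        ring
    · funext k
      fin_cases k <;> simp [c, z1]
    · have : HasDerivAt c ξ 0 := by
        rw [hasDerivAt_pi]
        intro k
        fin_cases k
        · exact hEd _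
        · exact hLd _ _
        · exact hEd _
        · have h3 : ξ 3 = conj (ξ 1) := by rw [h]; simp
          change HasDerivAt (fun t : ℝ => (t : ℂ) * conj (ξ 1) * exp (t * ξ 2)) (ξ 3) 0
          rw [h3]
          exact hLd _ _
      exact this.deriv

lemma tangent_z2 (ξ : Fin 4 → ℂ) : ξ ∈ tangentSpace DDᶜ z2 ↔ ξ 3 = 0 := by
  constructor
  · intro h
    have := tangent_dff h
    simpa [dff, z2] using this
  · intro h
    let c : ℝ → Fin 4 → ℂ := fun t => ![exp (t * ξ 0), t * ξ 1 * exp (t * ξ 0),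
      t * ξ 2, t * (t * (ξ 2 * conj (ξ 1)))]
    have hE : ∀ a : ℂ, ContDiff ℝ ∞ (fun t : ℝ => exp (t * a)) := by
      intro a
      exact ((Complex.ofRealCLM.contDiff.mul contDiff_const).cexp)
    have hL : ∀ a : ℂ, ContDiff ℝ ∞ (fun t : ℝ => (t : ℂ) * a) := by
      intro a
      exact (Complex.ofRealCLM.contDiff.mul contDiff_const)
    have hEd : ∀ a : ℂ, HasDerivAt (fun t : ℝ => exp (t * a)) a 0 := by
      intro a
      have h1 : HasDerivAt (fun t : ℝ => (t : ℂ) * a) (1 * a) 0 :=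
        (Complex.ofRealCLM.hasDerivAt (x := (0 : ℝ))).mul_const a
      have h2 := h1.cexp
      simpa using h2
    have hL1 : ∀ a : ℂ, HasDerivAt (fun t : ℝ => (t : ℂ) * a) a 0 := by
      intro a
      have h1 : HasDerivAt (fun t : ℝ => (t : ℂ) * a) (1 * a) 0 :=
        (Complex.ofRealCLM.hasDerivAt (x := (0 : ℝ))).mul_const a
      simpa using h1
    have hLd : ∀ a b : ℂ, HasDerivAt (fun t : ℝ => (t : ℂ) * a * exp (t * b)) a 0 := by
      intro a b
      have h2 := (hL1 a).fun_mul (hEd b)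
      simpa using h2
    refine ⟨c, ?_, ?_, ?_, ?_⟩
    · rw [contDiff_pi]
      intro k
      fin_cases k
      · exact hE _
      · exact (hL _).mul (hE _)
      · exact hL _
      · exact Complex.ofRealCLM.contDiff.mul (hL _)
    · intro t
      rw [mem_cone_compl]
      constructor
      · intro h0
        have := congrFun h0 0
        simp [c, exp_ne_zero] at this
      · simp only [ff, c]
        simp
        ring
    · funext k
      fin_cases k <;> simp [c, z2]
    · have : HasDerivAt c ξ 0 := by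
        rw [hasDerivAt_pi]
        intro k
        fin_cases k
        · exact hEd _
        · exact hLd _ _
        · exact hL1 _
        · change HasDerivAt (fun t : ℝ => (t : ℂ) * (t * (ξ 2 * conj (ξ 1)))) (ξ 3) 0
          rw [h]
          have h1 : HasDerivAt (fun t : ℝ => (t : ℂ)) 1 0 :=
            Complex.ofRealCLM.hasDerivAt (x := (0 : ℝ))
          have h2 := h1.fun_mul (hL1 (ξ 2 * conj (ξ 1)))
          simpa using h2
      exact this.deriv

lemma finrank_ker_pi (s : Finset (Fin 4)) (H : Submodule ℂ (Fin 4 → ℂ))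
    (hH : ∀ ξ, ξ ∈ H ↔ ∀ k ∈ s, ξ k = 0) : Module.finrank ℂ H = 4 - s.card := by
  classical
  let L : (Fin 4 → ℂ) →ₗ[ℂ] (s → ℂ) := LinearMap.funLeft ℂ ℂ (fun k : s => (k : Fin 4))
  have hker : H = LinearMap.ker L := by
    ext ξ
    rw [hH, LinearMap.mem_ker]
    constructor
    · intro h
      funext k
      exact h k k.2
    · intro h k hk
      exact congrFun h ⟨k, hk⟩
  have hsurj : Function.Surjective L :=
    LinearMap.funLeft_surjective_of_injective _ _ _ Subtype.val_injective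
  have h1 := LinearMap.finrank_range_add_finrank_ker L
  rw [LinearMap.range_eq_top.mpr hsurj, finrank_top, Module.finrank_fintype_fun_eq_card,
    Module.finrank_fintype_fun_eq_card, Fintype.card_coe, Fintype.card_fin] at h1
  rw [hker]
  omega

lemma crdim_z1 : HasCRDimensionAt DDᶜ z1 1 := by
  let H : Submodule ℂ (Fin 4 → ℂ) :=
    { carrier := {ξ | ∀ k ∈ ({1, 3} : Finset (Fin 4)), ξ k = 0}
      zero_mem' := fun k _ => rfl
      add_mem' := fun {a b} ha hb k hk => by
        change a k + b k = 0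
        rw [ha k hk, hb k hk, add_zero]
      smul_mem' := fun c a ha k hk => by
        change c * a k = 0
        rw [ha k hk, mul_zero] }
  refine ⟨H, ?_, ?_⟩
  · intro ξ
    rw [tangent_z1, tangent_z1]
    change (∀ k ∈ ({1, 3} : Finset (Fin 4)), ξ k = 0) ↔ _
    constructor
    · intro h
      have h1 := h 1 (by simp)
      have h3 := h 3 (by simp)
      simp [h1, h3]
    · rintro ⟨h, h'⟩
      simp only [Pi.smul_apply, smul_eq_mul, map_mul, conj_I] at h'
      have e1 : I * (ξ 1 + conj (ξ 3)) = 0 := by linear_combination h'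
      have e2 : ξ 1 + conj (ξ 3) = 0 := (mul_eq_zero.mp e1).resolve_left I_ne_zero
      have e3 : ξ 1 = 0 := by linear_combination (1 / 2 : ℂ) * h + (1 / 2 : ℂ) * e2
      have e4 : conj (ξ 3) = 0 := by linear_combination e2 - e3
      have e5 : ξ 3 = 0 := (map_eq_zero _).mp e4
      intro k hk
      simp only [Finset.mem_insert, Finset.mem_singleton] at hk
      rcases hk with rfl | rfl
      · exact e3
      · exact e5
  · rw [finrank_ker_pi {1, 3} H (fun ξ => Iff.rfl)]
    rfl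

lemma crdim_z2 : HasCRDimensionAt DDᶜ z2 2 := by
  let H : Submodule ℂ (Fin 4 → ℂ) :=
    { carrier := {ξ | ∀ k ∈ ({3} : Finset (Fin 4)), ξ k = 0}
      zero_mem' := fun k _ => rfl
      add_mem' := fun {a b} ha hb k hk => by
        change a k + b k = 0
        rw [ha k hk, hb k hk, add_zero]
      smul_mem' := fun c a ha k hk => by
        change c * a k = 0
        rw [ha k hk, mul_zero] }
  refine ⟨H, ?_, ?_⟩
  · intro ξ
    rw [tangent_z2, tangent_z2]
    change (∀ k ∈ ({3} : Finset (Fin 4)), ξ k = 0) ↔ _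
    constructor
    · intro h
      have h3 := h 3 (by simp)
      simp [h3]
    · rintro ⟨h, _⟩
      intro k hk
      simp only [Finset.mem_singleton] at hk
      rw [hk]
      exact h
  · rw [finrank_ker_pi {3} H (fun ξ => Iff.rfl)]
    rfl

lemma z1_ne : z1 ≠ 0 := by
  intro h
  have := congrFun h 0
  simp [z1] at this

lemma z2_ne : z2 ≠ 0 := by
  intro h
  have := congrFun h 0
  simp [z2] at this

lemma z1_mem : z1 ∈ cone DDᶜ := mem_cone_compl.mpr ⟨z1_ne, by simp [ff, z1]⟩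

lemma z2_mem : z2 ∈ cone DDᶜ := mem_cone_compl.mpr ⟨z2_ne, by simp [ff, z2]⟩

/-! ### Topology of `D` and of its complement -/

lemma isOpen_DD : IsOpen DD := by
  have h : IsOpen ((fun z : {z : Fin 4 → ℂ // z ≠ 0} => (mk ℂ z.1 z.2 : CP3)) ⁻¹' DD) := by
    have : (fun z : {z : Fin 4 → ℂ // z ≠ 0} => (mk ℂ z.1 z.2 : CP3)) ⁻¹' DD =
        {z | ff z.1 ≠ 0} := by
      ext z
      exact mk_mem_DD z.2
    rw [this]
    exact isOpen_ne_fun (continuous_ff.comp continuous_subtype_val) continuous_const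
  exact h

/-- `GL₂(ℂ)` (as a subset of `ℂ⁴`) is path connected -/
lemma isPathConnected_GL : IsPathConnected {m : Fin 4 → ℂ | m 0 * m 3 - m 1 * m 2 ≠ 0} := by
  rw [isPathConnected_iff]
  constructor
  · exact ⟨![1, 0, 0, 1], by simp⟩
  intro a ha b hb
  simp only [Set.mem_ofPred_eq] at ha hb
  -- the polynomial `s ↦ det (a + s (b - a))`
  let p : Polynomial ℂ :=
    (Polynomial.C (a 0) + Polynomial.X * Polynomial.C (b 0 - a 0)) *
      (Polynomial.C (a 3) + Polynomial.X * Polynomial.C (b 3 - a 3)) -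
    (Polynomial.C (a 1) + Polynomial.X * Polynomial.C (b 1 - a 1)) *
      (Polynomial.C (a 2) + Polynomial.X * Polynomial.C (b 2 - a 2))
  have hp : ∀ s : ℂ, p.eval s = (a + s • (b - a)) 0 * (a + s • (b - a)) 3 -
      (a + s • (b - a)) 1 * (a + s • (b - a)) 2 := by
    intro s
    simp [p]
  have hp0 : p ≠ 0 := by
    intro h
    have := hp 0
    rw [h] at this
    simp at this
    exact ha this.symm
  have hfin : ({s : ℂ | p.eval s = 0} : Set ℂ).Countable := by
    have h1 : {s : ℂ | p.eval s = 0} = ((p.roots.toFinset : Finset ℂ) : Set ℂ) := by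
      ext s
      simp [hp0, Polynomial.IsRoot]
    rw [h1]
    exact Set.Finite.countable (Finset.finite_toSet _)
  have hrank : 1 < Module.rank ℝ ℂ := by
    rw [Complex.rank_real_complex]
    norm_num
  have hconn := hfin.isPathConnected_compl_of_one_lt_rank hrank
  have h0mem : (0 : ℂ) ∈ {s : ℂ | p.eval s = 0}ᶜ := by
    intro h
    have h' : p.eval 0 = 0 := h
    rw [hp] at h'
    simp at h'
    exact ha h'
  have h1mem : (1 : ℂ) ∈ {s : ℂ | p.eval s = 0}ᶜ := by
    intro h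
    have h' : p.eval 1 = 0 := h
    rw [hp] at h'
    simp at h'
    exact hb h'
  have hj := hconn.joinedIn 0 h0mem 1 h1mem
  have hmap := hj.map_continuousOn (f := fun s : ℂ => a + s • (b - a)) (by fun_prop)
  simp only [zero_smul, add_zero, one_smul, add_sub_cancel] at hmap
  refine hmap.mono ?_
  rintro _ ⟨s, hs, rfl⟩
  simp only [Set.mem_ofPred_eq]
  rw [← hp]
  exact hs

lemma isConnected_DD : IsConnected DD := by
  let X : Type := {m : Fin 4 → ℂ // m ∈ {m : Fin 4 → ℂ | m 0 * m 3 - m 1 * m 2 ≠ 0}}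
  let κ : (Fin 4 → ℂ) → (Fin 4 → ℂ) := fun m => ![m 0, m 1, conj (m 2), conj (m 3)]
  have hff : ∀ m, ff (κ m) = m 0 * m 3 - m 1 * m 2 := by
    intro m
    simp [ff, κ]
  have hne : ∀ m : X, κ m.1 ≠ 0 := by
    intro m h
    have h1 := hff m.1
    rw [h] at h1
    apply m.2
    rw [← h1]
    simp [ff]
  have hcκ : Continuous κ := by
    rw [continuous_pi_iff]
    intro k
    fin_cases k
    · exact continuous_apply 0
    · exact continuous_apply 1
    · exact Complex.continuous_conj.comp (continuous_apply 2)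
    · exact Complex.continuous_conj.comp (continuous_apply 3)
  let φ : X → CP3 := fun m => mk ℂ (κ m.1) (hne m)
  have hφ : Continuous φ :=
    continuous_mk.comp (f := fun m : X => (⟨κ m.1, hne m⟩ : {z : Fin 4 → ℂ // z ≠ 0}))
      ((hcκ.comp continuous_subtype_val).subtype_mk _)
  have hX : ConnectedSpace X :=
    isConnected_iff_connectedSpace.mp isPathConnected_GL.isConnected
  have hrange : Set.range φ = DD := by
    ext p
    constructor
    · rintro ⟨m, rfl⟩
      rw [mk_mem_DD, hff]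
      exact m.2
    · intro hp
      induction p using ind with
      | h z hz =>
        rw [mk_mem_DD] at hp
        refine ⟨⟨κ z, ?_⟩, ?_⟩
        · change κ z 0 * κ z 3 - κ z 1 * κ z 2 ≠ 0
          exact hp
        · have : κ (κ z) = z := by
            funext k
            fin_cases k <;> simp [κ]
          simp only [φ, this]
  rw [← hrange]
  exact isConnected_range hφ

lemma isConnected_ne_zero : IsConnected ({u | u ≠ 0} : Set (Fin 2 → ℂ)) := by
  have hrank : 1 < Module.rank ℝ (Fin 2 → ℂ) := by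
    have h1 : 1 < Module.finrank ℝ (Fin 2 → ℂ) := by
      rw [finrank_real_of_complex]
      simp
    exact_mod_cast Module.lt_rank_of_lt_finrank h1
  exact (isPathConnected_compl_singleton_of_one_lt_rank hrank 0).isConnected

lemma isConnected_compl : IsConnected DDᶜ := by
  let X : Type := {u : Fin 2 → ℂ // u ∈ ({u | u ≠ 0} : Set (Fin 2 → ℂ))}
  have hX : ConnectedSpace X := isConnected_iff_connectedSpace.mp isConnected_ne_zero
  let κ : (Fin 2 → ℂ) × (Fin 2 → ℂ) → (Fin 4 → ℂ) := fun x =>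
    ![x.2 0 * x.1 0, x.2 0 * x.1 1, x.2 1 * conj (x.1 0), x.2 1 * conj (x.1 1)]
  have hne : ∀ x : X × X, κ (x.1.1, x.2.1) ≠ 0 := by
    rintro ⟨⟨u, hu⟩, ⟨a, ha⟩⟩ h
    have e0 := congrFun h 0
    have e1 := congrFun h 1
    have e2 := congrFun h 2
    have e3 := congrFun h 3
    simp only [κ, Pi.zero_apply, Matrix.cons_val_zero, Matrix.cons_val_one, Matrix.cons_val,
      mul_eq_zero, map_eq_zero] at e0 e1 e2 e3
    have hu' : ¬ (u 0 = 0 ∧ u 1 = 0) := by
      rintro ⟨h0, h1⟩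
      apply hu
      funext k
      fin_cases k
      · exact h0
      · exact h1
    have ha' : ¬ (a 0 = 0 ∧ a 1 = 0) := by
      rintro ⟨h0, h1⟩
      apply ha
      funext k
      fin_cases k
      · exact h0
      · exact h1
    tauto
  have hcκ : Continuous κ := by
    rw [continuous_pi_iff]
    intro k
    fin_cases k
    · simp only [κ]; fun_prop
    · simp only [κ]; fun_prop
    · simp only [κ]; fun_prop
    · simp only [κ]; fun_prop
  let φ : X × X → CP3 := fun x => mk ℂ (κ (x.1.1, x.2.1)) (hne x)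
  have hpair : Continuous (fun x : X × X => ((x.1.1, x.2.1) : (Fin 2 → ℂ) × (Fin 2 → ℂ))) :=
    (continuous_subtype_val.comp continuous_fst).prodMk
      (continuous_subtype_val.comp continuous_snd)
  have hφ : Continuous φ :=
    continuous_mk.comp (f := fun x : X × X =>
      (⟨κ (x.1.1, x.2.1), hne x⟩ : {z : Fin 4 → ℂ // z ≠ 0}))
      ((hcκ.comp hpair).subtype_mk _)
  have hrange : Set.range φ = DDᶜ := by
    ext p
    constructor
    · rintro ⟨x, rfl⟩
      rw [Set.mem_compl_iff, mk_mem_DD, not_not]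
      simp only [ff, κ]
      simp
      ring
    · intro hp
      induction p using ind with
      | h z hz =>
        rw [Set.mem_compl_iff, mk_mem_DD, not_not] at hp
        unfold ff at hp
        by_cases h0 : z 0 = 0 ∧ z 1 = 0
        · -- v = 0
          have hne' : (![conj (z 2), conj (z 3)] : Fin 2 → ℂ) ≠ 0 := by
            intro h
            apply hz
            have e0 := congrFun h 0
            have e1 := congrFun h 1
            simp at e0 e1
            funext k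
            fin_cases k
            · exact h0.1
            · exact h0.2
            · exact e0
            · exact e1
          refine ⟨(⟨![conj (z 2), conj (z 3)], hne'⟩, ⟨![0, 1], ?_⟩), ?_⟩
          · intro h
            have := congrFun h 1
            simp at this
          · have : κ (![conj (z 2), conj (z 3)], ![0, 1]) = z := by
              funext k
              fin_cases k
              · simp [κ, h0.1]
              · simp [κ, h0.2]
              · simp [κ]
              · simp [κ]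
            simp only [φ, this]
        · have hne' : (![z 0, z 1] : Fin 2 → ℂ) ≠ 0 := by
            intro h
            have e0 := congrFun h 0
            have e1 := congrFun h 1
            simp at e0 e1
            exact h0 ⟨e0, e1⟩
          -- `w = b \bar v`
          obtain ⟨b, hb2, hb3⟩ : ∃ b : ℂ, z 2 = b * conj (z 0) ∧ z 3 = b * conj (z 1) := by
            by_cases h00 : z 0 = 0
            · have h01 : z 1 ≠ 0 := fun h => h0 ⟨h00, h⟩
              have hc : conj (z 1) ≠ 0 := (map_ne_zero _).mpr h01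
              refine ⟨z 3 / conj (z 1), ?_, ?_⟩
              · rw [h00] at hp ⊢
                simp at hp
                rcases hp with h | h
                · exact absurd h h01
                · rw [h]; simp
              · rw [div_mul_cancel₀ _ hc]
            · have hc : conj (z 0) ≠ 0 := (map_ne_zero _).mpr h00
              refine ⟨z 2 / conj (z 0), ?_, ?_⟩
              · rw [div_mul_cancel₀ _ hc]
              · have e := congrArg conj hp
                simp only [map_sub, map_mul, conj_conj, map_zero] at e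
                rw [div_mul_eq_mul_div, eq_div_iff hc]
                linear_combination e
          refine ⟨(⟨![z 0, z 1], hne'⟩, ⟨![1, b], ?_⟩), ?_⟩
          · intro h
            have := congrFun h 0
            simp at this
          · have : κ (![z 0, z 1], ![1, b]) = z := by
              funext k
              fin_cases k
              · simp [κ]
              · simp [κ]
              · simp [κ, hb2]
              · simp [κ, hb3]
            simp only [φ, this]
  rw [← hrange]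
  exact isConnected_range hφ

/-! ### The group action -/

/-- `SL₂(ℂ)` -/
abbrev SL2 := Matrix.SpecialLinearGroup (Fin 2) ℂ

/-- `g ⊕ \bar g` acting on `ℂ² ⊕ ℂ²` -/
noncomputable def rho (g : Matrix (Fin 2) (Fin 2) ℂ) : (Fin 4 → ℂ) →ₗ[ℂ] (Fin 4 → ℂ) :=
  Matrix.toLin' !![g 0 0, g 0 1, 0, 0; g 1 0, g 1 1, 0, 0;
    0, 0, conj (g 0 0), conj (g 0 1); 0, 0, conj (g 1 0), conj (g 1 1)]

lemma rho_apply (g : Matrix (Fin 2) (Fin 2) ℂ) (z : Fin 4 → ℂ) :
    rho g z = ![g 0 0 * z 0 + g 0 1 * z 1, g 1 0 * z 0 + g 1 1 * z 1,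
      conj (g 0 0) * z 2 + conj (g 0 1) * z 3, conj (g 1 0) * z 2 + conj (g 1 1) * z 3] := by
  unfold rho
  rw [Matrix.toLin'_apply]
  funext k
  fin_cases k <;> simp [Matrix.mulVec, dotProduct, Fin.sum_univ_succ]

lemma rho_mul (g h : Matrix (Fin 2) (Fin 2) ℂ) (z : Fin 4 → ℂ) :
    rho (g * h) z = rho g (rho h z) := by
  rw [rho_apply, rho_apply, rho_apply]
  funext k
  fin_cases k <;> simp [Matrix.mul_apply, Fin.sum_univ_two] <;> ring

lemma rho_one (z : Fin 4 → ℂ) : rho 1 z = z := by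
  rw [rho_apply]
  funext k
  fin_cases k <;> simp

lemma ff_rho (g : Matrix (Fin 2) (Fin 2) ℂ) (z : Fin 4 → ℂ) :
    ff (rho g z) = g.det * ff z := by
  rw [rho_apply, Matrix.det_fin_two]
  simp only [ff]
  simp
  ring

lemma rho_inj (g : SL2) : Function.Injective (rho g) := by
  intro a b h
  have h1 : rho (((g⁻¹ : SL2) : Matrix (Fin 2) (Fin 2) ℂ) * (g : Matrix (Fin 2) (Fin 2) ℂ)) a =
      rho (((g⁻¹ : SL2) : Matrix (Fin 2) (Fin 2) ℂ) * (g : Matrix (Fin 2) (Fin 2) ℂ)) b := by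
    rw [rho_mul, rho_mul, h]
  rw [← Matrix.SpecialLinearGroup.coe_mul, inv_mul_cancel, Matrix.SpecialLinearGroup.coe_one,
    rho_one, rho_one] at h1
  exact h1

/-- the action of `SL₂(ℂ)` on `ℂℙ³` -/
noncomputable def actP (g : SL2) : CP3 → CP3 := Projectivization.map (rho g) (rho_inj g)

lemma actP_mk (g : SL2) (z : Fin 4 → ℂ) (hz : z ≠ 0) (hz' : rho g z ≠ 0) :
    actP g (mk ℂ z hz) = mk ℂ (rho g z) hz' := rfl

lemma rho_ne (g : SL2) {z : Fin 4 → ℂ} (hz : z ≠ 0) : rho g z ≠ 0 := by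
  intro h
  apply hz
  apply rho_inj g
  rw [h, map_zero]

lemma actP_mul (g h : SL2) (p : CP3) : actP (g * h) p = actP g (actP h p) := by
  induction p using ind with
  | h z hz =>
    rw [actP_mk _ _ _ (rho_ne _ hz), actP_mk _ _ _ (rho_ne _ hz),
      actP_mk _ _ _ (rho_ne _ (rho_ne _ hz))]
    congr 1
    rw [Matrix.SpecialLinearGroup.coe_mul, rho_mul]

lemma actP_one (p : CP3) : actP 1 p = p := by
  induction p using ind with
  | h z hz =>
    rw [actP_mk _ _ _ (rho_ne _ hz)]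
    congr 1
    rw [Matrix.SpecialLinearGroup.coe_one, rho_one]

lemma actP_mem (g : SL2) {p : CP3} (hp : p ∈ DD) : actP g p ∈ DD := by
  induction p using ind with
  | h z hz =>
    rw [actP_mk _ _ _ (rho_ne _ hz), mk_mem_DD, ff_rho, Matrix.SpecialLinearGroup.det_coe, one_mul]
    exact (mk_mem_DD hz).mp hp

/-- the action on `D` as a homomorphism to the group of permutations -/
noncomputable def hom : SL2 →* Equiv.Perm DD where
  toFun g :=
    { toFun := fun p => ⟨actP g p.1, actP_mem g p.2⟩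
      invFun := fun p => ⟨actP g⁻¹ p.1, actP_mem g⁻¹ p.2⟩
      left_inv := fun p => by
        apply Subtype.ext
        change actP g⁻¹ (actP g p.1) = p.1
        rw [← actP_mul, inv_mul_cancel, actP_one]
      right_inv := fun p => by
        apply Subtype.ext
        change actP g (actP g⁻¹ p.1) = p.1
        rw [← actP_mul, mul_inv_cancel, actP_one] }
  map_one' := by
    ext p
    exact actP_one p.1
  map_mul' g h := by
    ext p
    exact actP_mul g h p.1

lemma hom_apply (g : SL2) (p : DD) : ((hom g p : DD) : CP3) = actP g p.1 := rfl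

/-- The arithmetic group: the elements of reduced norm one congruent to `1` modulo `3` in the order
`ℤ[i]⟨1, I, J, IJ⟩`, `I² = 2`, `J² = 5`. -/
noncomputable def Gam : Subgroup SL2 where
  carrier := {g | ∃ y : Fin 4 → GaussianInt,
    (g : Matrix (Fin 2) (Fin 2) ℂ) = 1 + (3 : ℂ) • Phi (emb y)}
  one_mem' := by
    refine ⟨0, ?_⟩
    have : Phi (emb 0) = 0 := by
      ext i j
      fin_cases i <;> fin_cases j <;> simp [Phi, emb]
    rw [this]
    simp
  mul_mem' := by
    rintro g h ⟨y, hy⟩ ⟨x, hx⟩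
    refine ⟨fun k => y k + x k + 3 * qmul y x k, ?_⟩
    have h1 : emb (fun k => y k + x k + 3 * qmul y x k) =
        emb y + emb x + (3 : ℂ) • emb (qmul y x) := by
      funext k
      simp [emb, map_ofNat]
    rw [Matrix.SpecialLinearGroup.coe_mul, hy, hx, h1, Phi_add, Phi_add, Phi_smul, emb_qmul,
      Phi_qmul]
    simp only [Matrix.mul_add, Matrix.add_mul, Matrix.mul_one, Matrix.one_mul, Matrix.smul_mul,
      Matrix.mul_smul, smul_add]
    abel
  inv_mem' := by
    rintro g ⟨y, hy⟩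
    refine ⟨qconj y, ?_⟩
    rw [Matrix.SpecialLinearGroup.coe_inv, hy, emb_qconj, ← adj_Phi, Matrix.adjugate_fin_two,
      Matrix.adjugate_fin_two]
    ext i j
    fin_cases i <;> fin_cases j <;> simp

/-- The group `Γ`. -/
noncomputable def GG : Subgroup (Equiv.Perm DD) := Gam.map hom

lemma holo (γ : Equiv.Perm DD) (hγ : γ ∈ GG) : IsHolomorphicSelfMap DD γ := by
  obtain ⟨g, _, rfl⟩ := hγ
  intro z hz
  have hz' := mem_cone_DD.mp hz
  refine ⟨{y | ff y ≠ 0}, isOpen_ne_fun continuous_ff continuous_const, hz', rho g,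
    ((rho g).toContinuousLinearMap.differentiable).differentiableOn, ?_⟩
  intro y hy
  obtain ⟨hy0, hyD⟩ := mem_cone_DD.mpr hy
  exact ⟨hy0, hyD, rho_ne g hy0, rfl⟩

lemma trace_Phi (x : Fin 4 → ℂ) :
    ((1 : Matrix (Fin 2) (Fin 2) ℂ) + (3 : ℂ) • Phi x) 0 0 + (1 + (3 : ℂ) • Phi x) 1 1 =
      2 + 6 * x 0 := by
  simp [Phi]
  ring

/-- an eigenvector argument -/
lemma fixed_point (g : SL2) (hg : g ∈ Gam) (z : Fin 4 → ℂ) (hz : ff z ≠ 0) (c : ℂ)
    (hc : c • z = rho g z) : g = 1 := by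
  obtain ⟨y, hy⟩ := hg
  set G : Matrix (Fin 2) (Fin 2) ℂ := (g : Matrix (Fin 2) (Fin 2) ℂ) with hG
  have hdet : G.det = 1 := Matrix.SpecialLinearGroup.det_coe g
  rw [rho_apply] at hc
  have e0 := congrFun hc 0
  have e1 := congrFun hc 1
  have e2 := congrArg conj (congrFun hc 2)
  have e3 := congrArg conj (congrFun hc 3)
  simp only [Pi.smul_apply, smul_eq_mul, map_mul, map_add, conj_conj, Matrix.cons_val_zero,
    Matrix.cons_val_one, Matrix.cons_val] at e0 e1 e2 e3
  have hcc : c * conj c = 1 := by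
    have h1 : ff (c • z) = ff (rho g z) := by
      rw [rho_apply]
      exact congrArg ff hc
    rw [ff_smul, ff_rho, ← hG, hdet, one_mul] at h1
    exact mul_right_cancel₀ hz (by rw [h1, one_mul])
  have htr : G 0 0 + G 1 1 = c + conj c := by
    apply mul_right_cancel₀ hz
    unfold ff
    linear_combination (-conj (z 3)) * e0 + conj (z 2) * e1 + z 1 * e2 - z 0 * e3
  have htr2 : G 0 0 + G 1 1 = 2 + 6 * GaussianInt.toComplex (y 0) := by
    rw [hy]
    exact trace_Phi (emb y)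
  -- real parts
  have hre : (c.re : ℝ) = 1 + 3 * ((y 0).re : ℝ) := by
    have h1 := congrArg Complex.re (htr.symm.trans htr2)
    have h2 : (GaussianInt.toComplex (y 0)).re = ((y 0).re : ℝ) :=
      (GaussianInt.intCast_re (y 0)).symm
    rw [Complex.add_re, Complex.conj_re, Complex.add_re, Complex.mul_re, h2] at h1
    simp only [Complex.re_ofNat, Complex.im_ofNat, zero_mul, sub_zero] at h1
    linarith
  have hnorm : c.re ^ 2 + c.im ^ 2 = 1 := by
    have h1 := congrArg Complex.re hcc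
    simp at h1
    nlinarith
  have hyr : (y 0).re = 0 := by
    have h1 : c.re ≤ 1 := by nlinarith [sq_nonneg c.im]
    have h2 : -1 ≤ c.re := by nlinarith [sq_nonneg c.im]
    rw [hre] at h1 h2
    have h3 : ((y 0).re : ℝ) < 1 := by linarith
    have h4 : (-1 : ℝ) < ((y 0).re : ℝ) := by linarith
    have h5 : (y 0).re < 1 := by exact_mod_cast h3
    have h6 : -1 < (y 0).re := by exact_mod_cast h4
    omega
  have hre1 : c.re = 1 := by
    rw [hre, hyr]; simp
  have him : c.im = 0 := by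
    rw [hre1] at hnorm
    nlinarith
  have hc1 : c = 1 := Complex.ext (by simp [hre1]) (by simp [him])
  rw [hc1] at e0 e1 e2 e3
  simp only [map_one, one_mul] at e0 e1 e2 e3
  have g00 : G 0 0 = 1 := by
    apply mul_right_cancel₀ hz
    unfold ff
    linear_combination (-conj (z 3)) * e0 + z 1 * e2
  have g01 : G 0 1 = 0 := by
    have : G 0 1 * ff z = 0 := by
      unfold ff
      linear_combination (conj (z 2)) * e0 - z 0 * e2
    exact (mul_eq_zero.mp this).resolve_right hz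
  have g10 : G 1 0 = 0 := by
    have : G 1 0 * ff z = 0 := by
      unfold ff
      linear_combination (-conj (z 3)) * e1 + z 1 * e3
    exact (mul_eq_zero.mp this).resolve_right hz
  have g11 : G 1 1 = 1 := by
    apply mul_right_cancel₀ hz
    unfold ff
    linear_combination (conj (z 2)) * e1 - z 0 * e3
  apply Matrix.SpecialLinearGroup.ext
  intro i j
  rw [← hG]
  fin_cases i <;> fin_cases j
  · simp [g00]
  · simp [g01]
  · simp [g10]
  · simp [g11]

lemma free (γ : Equiv.Perm DD) (hγ : γ ∈ GG) (p : DD) (hp : γ p = p) : γ = 1 := by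
  obtain ⟨g, hg, rfl⟩ := hγ
  obtain ⟨p, hpD⟩ := p
  have h1 : actP g p = p := congrArg Subtype.val hp
  induction p using ind with
  | h z hz =>
    rw [actP_mk _ _ _ (rho_ne _ hz), mk_eq_mk_iff'] at h1
    obtain ⟨c, hc⟩ := h1
    rw [fixed_point g hg z ((mk_mem_DD hz).mp hpD) c hc]
    exact map_one hom

/-! ### Proper discontinuity -/

/-- points with a small representative -/
def WW (n : ℕ) : Set CP3 :=
  {p | ∃ (z : Fin 4 → ℂ) (hz : z ≠ 0), p = mk ℂ z hz ∧ ∀ k, ‖z k‖ ^ 2 < n * ‖ff z‖}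

lemma mk_mem_WW {n : ℕ} {z : Fin 4 → ℂ} (hz : z ≠ 0) :
    mk ℂ z hz ∈ WW n ↔ ∀ k, ‖z k‖ ^ 2 < n * ‖ff z‖ := by
  constructor
  · rintro ⟨y, hy, h, hlt⟩ k
    rw [mk_eq_mk_iff'] at h
    obtain ⟨a, rfl⟩ := h
    have ha : a ≠ 0 := by
      rintro rfl
      simp at hz
    rw [ff_smul, Pi.smul_apply, smul_eq_mul, norm_mul, norm_mul, norm_mul, Complex.norm_conj]
    have h1 := hlt k
    have h2 : 0 < ‖a‖ ^ 2 := by positivity
    calc (‖a‖ * ‖y k‖) ^ 2 = ‖a‖ ^ 2 * ‖y k‖ ^ 2 := by ring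
      _ < ‖a‖ ^ 2 * (n * ‖ff y‖) := by
          apply mul_lt_mul_of_pos_left h1 h2
      _ = _ := by ring
  · intro h
    exact ⟨z, hz, rfl, h⟩

lemma isOpen_WW (n : ℕ) : IsOpen (WW n) := by
  have h : IsOpen ((fun z : {z : Fin 4 → ℂ // z ≠ 0} => (mk ℂ z.1 z.2 : CP3)) ⁻¹' (WW n)) := by
    have : (fun z : {z : Fin 4 → ℂ // z ≠ 0} => (mk ℂ z.1 z.2 : CP3)) ⁻¹' (WW n) =
        ⋂ k, {z | ‖z.1 k‖ ^ 2 < n * ‖ff z.1‖} := by
      ext z
      rw [Set.mem_preimage, mk_mem_WW, Set.mem_iInter]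
      rfl
    rw [this]
    apply isOpen_iInter_of_finite
    intro k
    apply isOpen_lt
    · have : Continuous (fun z : {z : Fin 4 → ℂ // z ≠ 0} => z.1 k) :=
        (continuous_apply k).comp continuous_subtype_val
      exact this.norm.pow 2
    · exact continuous_const.mul (continuous_ff.comp continuous_subtype_val).norm
  exact h

lemma bounded_of_compact (K : Set DD) (hK : IsCompact K) : ∃ n : ℕ, ∀ p ∈ K,
    ∃ (z : Fin 4 → ℂ) (hz : z ≠ 0), (p : CP3) = mk ℂ z hz ∧ ‖ff z‖ = 1 ∧ ∀ k, ‖z k‖ ≤ n := by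
  have hcover : K ⊆ ⋃ n : ℕ, (Subtype.val ⁻¹' (WW n) : Set DD) := by
    rintro ⟨p, hp⟩ _
    rw [Set.mem_iUnion]
    induction p using ind with
    | h z hz =>
      have hf := (mk_mem_DD hz).mp hp
      have hf' : 0 < ‖ff z‖ := norm_pos_iff.mpr hf
      obtain ⟨n, hn⟩ := exists_nat_gt ((∑ k, ‖z k‖ ^ 2) / ‖ff z‖)
      refine ⟨n, ?_⟩
      change mk ℂ z hz ∈ WW n
      rw [mk_mem_WW]
      intro k
      rw [div_lt_iff₀ hf'] at hn
      refine lt_of_le_of_lt ?_ hn
      exact Finset.single_le_sum (f := fun k => ‖z k‖ ^ 2) (fun _ _ => by positivity)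
        (Finset.mem_univ k)
  have hdir : Directed (· ⊆ ·) (fun n : ℕ => (Subtype.val ⁻¹' (WW n) : Set DD)) := by
    apply Monotone.directed_le
    intro m n hmn
    rintro ⟨p, hp⟩ h
    obtain ⟨z, hz, h1, h2⟩ := h
    refine ⟨z, hz, h1, fun k => lt_of_lt_of_le (h2 k) ?_⟩
    have : (m : ℝ) ≤ n := by exact_mod_cast hmn
    exact mul_le_mul_of_nonneg_right this (norm_nonneg _)
  obtain ⟨n, hn⟩ := hK.elim_directed_cover _
    (fun n => (isOpen_WW n).preimage continuous_subtype_val) hcover hdir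
  refine ⟨n, ?_⟩
  rintro ⟨p, hpD⟩ hp
  obtain ⟨z, hz, h1, h2⟩ := hn hp
  have hzD : ff z ≠ 0 := by
    rw [← mk_mem_DD hz, ← h1]
    exact hpD
  have hf' : 0 < ‖ff z‖ := norm_pos_iff.mpr hzD
  set s : ℝ := √‖ff z‖ with hs
  have hs0 : 0 < s := Real.sqrt_pos.mpr hf'
  have hss : s * s = ‖ff z‖ := Real.mul_self_sqrt hf'.le
  set a : ℂ := ((s⁻¹ : ℝ) : ℂ) with ha
  have ha0 : a ≠ 0 := by
    rw [ha]
    exact_mod_cast (inv_pos.mpr hs0).ne'
  have hna : ‖a‖ = s⁻¹ := by
    rw [ha, Complex.norm_real, Real.norm_of_nonneg (inv_pos.mpr hs0).le]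
  have haz : a • z ≠ 0 := smul_ne_zero ha0 hz
  have hn1 : (1 : ℝ) ≤ n := by
    have h3 := h2 0
    have h4 : 0 < (n : ℝ) := by
      by_contra h5
      have : (n : ℝ) * ‖ff z‖ ≤ 0 := mul_nonpos_of_nonpos_of_nonneg (not_lt.mp h5) hf'.le
      nlinarith [sq_nonneg ‖z 0‖]
    have h5 : 0 < n := by exact_mod_cast h4
    exact_mod_cast h5
  refine ⟨a • z, haz, ?_, ?_, ?_⟩
  · rw [h1, mk_eq_mk_iff']
    exact ⟨a⁻¹, by rw [smul_smul, inv_mul_cancel₀ ha0, one_smul]⟩
  · rw [ff_smul, norm_mul, norm_mul, Complex.norm_conj, hna, ← hss]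
    field_simp
  · intro k
    rw [Pi.smul_apply, smul_eq_mul, norm_mul, hna]
    have h3 := h2 k
    have h4 : (s⁻¹ * ‖z k‖) ^ 2 < n := by
      rw [mul_pow, inv_pow, inv_mul_lt_iff₀ (by positivity), pow_two s, hss, mul_comm]
      exact h3
    have h5 : (s⁻¹ * ‖z k‖) ^ 2 ≤ (n : ℝ) ^ 2 := by nlinarith
    exact abs_le_of_sq_le_sq' h5 (by linarith) |>.2

lemma finite_gauss (B : ℝ) : {g : GaussianInt | ‖GaussianInt.toComplex g‖ ≤ B}.Finite := by
  obtain ⟨N, hN⟩ := exists_nat_ge B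
  apply Set.Finite.subset (((Set.finite_Icc (-(N : ℤ)) N).prod
    (Set.finite_Icc (-(N : ℤ)) N)).image (fun p : ℤ × ℤ => (⟨p.1, p.2⟩ : GaussianInt)))
  intro g hg
  have hg' : ‖GaussianInt.toComplex g‖ ≤ N := le_trans hg hN
  have h1 : |((g.re : ℤ) : ℝ)| ≤ N := by
    rw [GaussianInt.intCast_re]
    exact (Complex.abs_re_le_norm _).trans hg'
  have h2 : |((g.im : ℤ) : ℝ)| ≤ N := by
    rw [GaussianInt.intCast_im]
    exact (Complex.abs_im_le_norm _).trans hg'
  have h1' : |g.re| ≤ (N : ℤ) := by exact_mod_cast h1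
  have h2' : |g.im| ≤ (N : ℤ) := by exact_mod_cast h2
  rw [abs_le] at h1' h2'
  exact ⟨(g.re, g.im), ⟨⟨h1'.1, h1'.2⟩, ⟨h2'.1, h2'.2⟩⟩, rfl⟩

lemma norm_s2 : 1 ≤ ‖s2‖ := by
  have h := congrArg norm s2_sq
  rw [norm_mul] at h
  simp at h
  nlinarith [norm_nonneg s2]

lemma norm_s5 : 1 ≤ ‖s5‖ := by
  have h := congrArg norm s5_sq
  rw [norm_mul] at h
  simp at h
  nlinarith [norm_nonneg s5]

lemma entries_bound (x : Fin 4 → ℂ) (B : ℝ)
    (h : ∀ i j, ‖(1 + (3 : ℂ) • Phi x) i j‖ ≤ B) (k : Fin 4) : ‖x k‖ ≤ B + 1 := by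
  have h00 := h 0 0
  have h01 := h 0 1
  have h10 := h 1 0
  have h11 := h 1 1
  set M := (1 : Matrix (Fin 2) (Fin 2) ℂ) + (3 : ℂ) • Phi x with hM
  have hB : 0 ≤ B := (norm_nonneg _).trans h00
  have m00 : M 0 0 = 1 + 3 * (x 0 + x 1 * s2) := by simp [hM, Phi]
  have m01 : M 0 1 = 3 * (s5 * (x 2 + x 3 * s2)) := by simp [hM, Phi]
  have m10 : M 1 0 = 3 * (s5 * (x 2 - x 3 * s2)) := by simp [hM, Phi]
  have m11 : M 1 1 = 1 + 3 * (x 0 - x 1 * s2) := by simp [hM, Phi]
  have n2 := norm_s2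
  have n5 := norm_s5
  have n3 : ‖(6 : ℂ)‖ = 6 := by simp
  fin_cases k
  · have e : 6 * x 0 = (M 0 0 + M 1 1) - 2 := by rw [m00, m11]; ring
    have h1 := congrArg norm e
    rw [norm_mul, n3] at h1
    have h2 : ‖(M 0 0 + M 1 1) - 2‖ ≤ B + B + 2 := by
      refine (norm_sub_le _ _).trans ?_
      refine add_le_add ((norm_add_le _ _).trans (add_le_add h00 h11)) ?_
      simp
    change ‖x 0‖ ≤ B + 1
    nlinarith [norm_nonneg (x 0)]
  · have e : 6 * (x 1 * s2) = M 0 0 - M 1 1 := by rw [m00, m11]; ring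
    have h1 := congrArg norm e
    rw [norm_mul, norm_mul, n3] at h1
    have h2 : ‖M 0 0 - M 1 1‖ ≤ B + B := (norm_sub_le _ _).trans (add_le_add h00 h11)
    have h3 : ‖x 1‖ ≤ ‖x 1‖ * ‖s2‖ := le_mul_of_one_le_right (norm_nonneg _) n2
    change ‖x 1‖ ≤ B + 1
    nlinarith [norm_nonneg (x 1)]
  · have e : 6 * (s5 * x 2) = M 0 1 + M 1 0 := by rw [m01, m10]; ring
    have h1 := congrArg norm e
    rw [norm_mul, norm_mul, n3] at h1
    have h2 : ‖M 0 1 + M 1 0‖ ≤ B + B := (norm_add_le _ _).trans (add_le_add h01 h10)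
    have h3 : ‖x 2‖ ≤ ‖s5‖ * ‖x 2‖ := le_mul_of_one_le_left (norm_nonneg _) n5
    change ‖x 2‖ ≤ B + 1
    nlinarith [norm_nonneg (x 2)]
  · have e : 6 * (s5 * (x 3 * s2)) = M 0 1 - M 1 0 := by rw [m01, m10]; ring
    have h1 := congrArg norm e
    rw [norm_mul, norm_mul, norm_mul, n3] at h1
    have h2 : ‖M 0 1 - M 1 0‖ ≤ B + B := (norm_sub_le _ _).trans (add_le_add h01 h10)
    have h3 : ‖x 3‖ ≤ ‖x 3‖ * ‖s2‖ := le_mul_of_one_le_right (norm_nonneg _) n2
    have h4 : ‖x 3‖ * ‖s2‖ ≤ ‖s5‖ * (‖x 3‖ * ‖s2‖) := le_mul_of_one_le_left (by positivity) n5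
    change ‖x 3‖ ≤ B + 1
    nlinarith [norm_nonneg (x 3)]

lemma finite_Gam (B : ℝ) : {g : SL2 | g ∈ Gam ∧ ∀ i j, ‖(g : Matrix (Fin 2) (Fin 2) ℂ) i j‖ ≤ B}.Finite := by
  have hY : {y : Fin 4 → GaussianInt | ∀ k, y k ∈ {g : GaussianInt | ‖GaussianInt.toComplex g‖ ≤ B + 1}}.Finite :=
    Set.Finite.pi' (fun _ => finite_gauss (B + 1))
  have himg := hY.image (fun y : Fin 4 → GaussianInt =>
    (1 : Matrix (Fin 2) (Fin 2) ℂ) + (3 : ℂ) • Phi (emb y))
  have hpre := Set.Finite.preimage (f := fun g : SL2 => (g : Matrix (Fin 2) (Fin 2) ℂ))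
    (fun a _ b _ hab => Subtype.ext hab) himg
  apply hpre.subset
  rintro g ⟨⟨y, hy⟩, hb⟩
  refine ⟨y, ?_, hy.symm⟩
  intro k
  rw [hy] at hb
  exact entries_bound (emb y) B hb k

lemma norm_sub_mul_le (a b c d : ℂ) (n : ℝ) (ha : ‖a‖ ≤ n) (hb : ‖b‖ ≤ n) (hc : ‖c‖ ≤ n)
    (hd : ‖d‖ ≤ n) : ‖a * b - c * d‖ ≤ 2 * n ^ 2 := by
  have hn : 0 ≤ n := (norm_nonneg _).trans ha
  calc ‖a * b - c * d‖ ≤ ‖a * b‖ + ‖c * d‖ := norm_sub_le _ _
    _ = ‖a‖ * ‖b‖ + ‖c‖ * ‖d‖ := by rw [norm_mul, norm_mul]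
    _ ≤ n * n + n * n := by
        apply add_le_add
        · exact mul_le_mul ha hb (norm_nonneg _) hn
        · exact mul_le_mul hc hd (norm_nonneg _) hn
    _ = 2 * n ^ 2 := by ring

lemma proper (K : Set DD) (hK : IsCompact K) :
    {γ : Equiv.Perm DD | γ ∈ GG ∧ ((γ '' K) ∩ K).Nonempty}.Finite := by
  obtain ⟨n, hn⟩ := bounded_of_compact K hK
  apply ((finite_Gam (2 * (n : ℝ) ^ 2)).image hom).subset
  rintro γ ⟨⟨g, hg, rfl⟩, ⟨q, ⟨p, hp, hpq⟩, hq⟩⟩
  refine ⟨g, ⟨hg, ?_⟩, rfl⟩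
  obtain ⟨z, hz, hz1, hz2, hz3⟩ := hn p hp
  obtain ⟨z', hz', hz1', hz2', hz3'⟩ := hn q hq
  have h1 : actP g (mk ℂ z hz) = mk ℂ z' hz' := by
    rw [← hz1, ← hz1', ← hpq, hom_apply]
  rw [actP_mk _ _ _ (rho_ne _ hz), mk_eq_mk_iff'] at h1
  obtain ⟨c, hc⟩ := h1
  have hcn : ‖c‖ = 1 := by
    have h2 : ‖ff (c • z')‖ = ‖ff (rho g z)‖ := by rw [hc]
    rw [ff_smul, ff_rho, Matrix.SpecialLinearGroup.det_coe, one_mul, norm_mul, norm_mul,
      Complex.norm_conj, hz2, hz2', mul_one] at h2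
    have := norm_nonneg c
    nlinarith
  have hb : ∀ k, ‖(rho g z) k‖ ≤ n := by
    intro k
    rw [← hc, Pi.smul_apply, smul_eq_mul, norm_mul, hcn, one_mul]
    exact hz3' k
  have hb' : ∀ k, ‖conj ((rho g z) k)‖ ≤ n := fun k => by rw [Complex.norm_conj]; exact hb k
  have hzc : ∀ k, ‖conj (z k)‖ ≤ n := fun k => by rw [Complex.norm_conj]; exact hz3 k
  set G : Matrix (Fin 2) (Fin 2) ℂ := (g : Matrix (Fin 2) (Fin 2) ℂ) with hG
  have r0 : (rho G z) 0 = G 0 0 * z 0 + G 0 1 * z 1 := by rw [rho_apply]; simp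
  have r1 : (rho G z) 1 = G 1 0 * z 0 + G 1 1 * z 1 := by rw [rho_apply]; simp
  have r2 : conj ((rho G z) 2) = G 0 0 * conj (z 2) + G 0 1 * conj (z 3) := by
    rw [rho_apply]; simp
  have r3 : conj ((rho G z) 3) = G 1 0 * conj (z 2) + G 1 1 * conj (z 3) := by
    rw [rho_apply]; simp
  have key : ∀ w : ℂ, ‖w * ff z‖ = ‖w‖ := fun w => by rw [norm_mul, hz2, mul_one]
  intro i j
  fin_cases i <;> fin_cases j
  · change ‖G 0 0‖ ≤ _
    have : G 0 0 * ff z = (rho G z) 0 * conj (z 3) - conj ((rho G z) 2) * z 1 := by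
      rw [r0, r2]; unfold ff; ring
    rw [← key, this]
    exact norm_sub_mul_le _ _ _ _ _ (hb 0) (hzc 3) (hb' 2) (hz3 1)
  · change ‖G 0 1‖ ≤ _
    have : G 0 1 * ff z = conj ((rho G z) 2) * z 0 - (rho G z) 0 * conj (z 2) := by
      rw [r0, r2]; unfold ff; ring
    rw [← key, this]
    exact norm_sub_mul_le _ _ _ _ _ (hb' 2) (hz3 0) (hb 0) (hzc 2)
  · change ‖G 1 0‖ ≤ _
    have : G 1 0 * ff z = (rho G z) 1 * conj (z 3) - conj ((rho G z) 3) * z 1 := by
      rw [r1, r3]; unfold ff; ring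
    rw [← key, this]
    exact norm_sub_mul_le _ _ _ _ _ (hb 1) (hzc 3) (hb' 3) (hz3 1)
  · change ‖G 1 1‖ ≤ _
    have : G 1 1 * ff z = conj ((rho G z) 3) * z 0 - (rho G z) 1 * conj (z 2) := by
      rw [r1, r3]; unfold ff; ring
    rw [← key, this]
    exact norm_sub_mul_le _ _ _ _ _ (hb' 3) (hz3 0) (hb 1) (hzc 2)

/-! ### Compactness of the quotient -/

/-- the compact set of representatives -/
def CC (R : ℝ) : Set (Fin 4 → ℂ) := {z | ‖ff z‖ = 1 ∧ ∀ k, ‖z k‖ ≤ R}

lemma isCompact_CC (R : ℝ) : IsCompact (CC R) := by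
  apply Metric.isCompact_of_isClosed_isBounded
  · apply IsClosed.inter
    · exact isClosed_eq continuous_ff.norm continuous_const
    · have : {z : Fin 4 → ℂ | ∀ k, ‖z k‖ ≤ R} = ⋂ k, {z | ‖z k‖ ≤ R} := by
        ext z; simp
      change IsClosed {z : Fin 4 → ℂ | ∀ k, ‖z k‖ ≤ R}
      rw [this]
      exact isClosed_iInter fun k => isClosed_le (continuous_apply k).norm continuous_const
  · apply (Metric.isBounded_closedBall (x := (0 : Fin 4 → ℂ)) (r := |R|)).subset
    rintro z ⟨_, hz⟩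
    rw [mem_closedBall_zero_iff, pi_norm_le_iff_of_nonneg (abs_nonneg R)]
    exact fun k => (hz k).trans (le_abs_self R)

lemma reduction : ∃ R : ℝ, ∀ p ∈ DD, ∃ g ∈ Gam, ∃ (z : Fin 4 → ℂ) (hz : z ≠ 0), z ∈ CC R ∧
    actP g p = mk ℂ z hz := by
  obtain ⟨R, hR⟩ := red
  refine ⟨R, ?_⟩
  intro p hp
  induction p using ind with
  | h z hz =>
    have hf := (mk_mem_DD hz).mp hp
    obtain ⟨κ, hκ⟩ := IsAlgClosed.exists_pow_nat_eq (ff z) (n := 2) (by norm_num)
    have hκ0 : κ ≠ 0 := by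
      rintro rfl
      apply hf
      rw [← hκ]; simp
    let h : Matrix (Fin 2) (Fin 2) ℂ := !![z 0 / κ, conj (z 2) / κ; z 1 / κ, conj (z 3) / κ]
    have hdet : h.det = 1 := by
      rw [Matrix.det_fin_two]
      simp only [h, Matrix.of_apply, Matrix.cons_val_zero, Matrix.cons_val_one,
        Matrix.cons_val', Matrix.cons_val_fin_one]
      have h1 : z 0 / κ * (conj (z 3) / κ) - conj (z 2) / κ * (z 1 / κ) = ff z / κ ^ 2 := by
        unfold ff
        field_simp
      rw [h1, hκ, div_self hf]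
    obtain ⟨y, hy1, hy2⟩ := hR h hdet
    let g : SL2 := ⟨1 + (3 : ℂ) • Phi (emb y), hy1⟩
    have hg : g ∈ Gam := ⟨y, rfl⟩
    set G : Matrix (Fin 2) (Fin 2) ℂ := 1 + (3 : ℂ) • Phi (emb y) with hG
    have hgz : rho g z ≠ 0 := rho_ne g hz
    have hz' : κ⁻¹ • rho g z ≠ 0 := smul_ne_zero (inv_ne_zero hκ0) hgz
    refine ⟨g, hg, κ⁻¹ • rho g z, hz', ⟨?_, ?_⟩, ?_⟩
    · rw [ff_smul, ff_rho, Matrix.SpecialLinearGroup.det_coe, one_mul, norm_mul, norm_mul,
        Complex.norm_conj, ← hκ, norm_inv, norm_pow]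
      have : ‖κ‖ ≠ 0 := norm_ne_zero_iff.mpr hκ0
      field_simp
    · have hcκ : conj κ ≠ 0 := (map_ne_zero _).mpr hκ0
      have r0 : (κ⁻¹ • rho G z) 0 = (G * h) 0 0 := by
        rw [Pi.smul_apply, rho_apply]
        simp [h, Matrix.mul_apply, Fin.sum_univ_two]
        field_simp
      have r1 : (κ⁻¹ • rho G z) 1 = (G * h) 1 0 := by
        rw [Pi.smul_apply, rho_apply]
        simp [h, Matrix.mul_apply, Fin.sum_univ_two]
        field_simp
      have r2 : (κ⁻¹ • rho G z) 2 = (conj κ / κ) * conj ((G * h) 0 1) := by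
        rw [Pi.smul_apply, rho_apply]
        simp [h, Matrix.mul_apply, Fin.sum_univ_two]
        field_simp
      have r3 : (κ⁻¹ • rho G z) 3 = (conj κ / κ) * conj ((G * h) 1 1) := by
        rw [Pi.smul_apply, rho_apply]
        simp [h, Matrix.mul_apply, Fin.sum_univ_two]
        field_simp
      have hu : ‖conj κ / κ‖ = 1 := by
        rw [norm_div, Complex.norm_conj, div_self (norm_ne_zero_iff.mpr hκ0)]
      intro k
      fin_cases k
      · change ‖(κ⁻¹ • rho G z) 0‖ ≤ R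
        rw [r0]
        exact hy2 0 0
      · change ‖(κ⁻¹ • rho G z) 1‖ ≤ R
        rw [r1]
        exact hy2 1 0
      · change ‖(κ⁻¹ • rho G z) 2‖ ≤ R
        rw [r2, norm_mul, hu, one_mul, Complex.norm_conj]
        exact hy2 0 1
      · change ‖(κ⁻¹ • rho G z) 3‖ ≤ R
        rw [r3, norm_mul, hu, one_mul, Complex.norm_conj]
        exact hy2 1 1
    · rw [actP_mk _ _ _ hgz, mk_eq_mk_iff']
      exact ⟨κ, by rw [smul_smul, mul_inv_cancel₀ hκ0, one_smul]⟩

lemma compactQuotient : CompactSpace (Quotient (MulAction.orbitRel GG DD)) := by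
  obtain ⟨R, hR⟩ := reduction
  have hC : CompactSpace (CC R) := isCompact_iff_compactSpace.mp (isCompact_CC R)
  have hf : ∀ z : CC R, ff z.1 ≠ 0 := by
    intro z h
    have := z.2.1
    rw [h, norm_zero] at this
    exact zero_ne_one this
  have hne : ∀ z : CC R, z.1 ≠ 0 := by
    intro z h
    apply hf z
    rw [h]
    simp [ff]
  let ψ : CC R → Quotient (MulAction.orbitRel GG DD) := fun z =>
    Quotient.mk _ ⟨mk ℂ z.1 (hne z), (mk_mem_DD (hne z)).mpr (hf z)⟩
  have hψ : Continuous ψ := by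
    apply continuous_quotient_mk'.comp
    apply Continuous.subtype_mk
    exact continuous_mk.comp (f := fun z : CC R => (⟨z.1, hne z⟩ : {z : Fin 4 → ℂ // z ≠ 0}))
      (continuous_subtype_val.subtype_mk _)
  have hsurj : Function.Surjective ψ := by
    intro q
    induction q using Quotient.inductionOn with
    | h p =>
      obtain ⟨g, hg, z, hz, hzC, h1⟩ := hR p.1 p.2
      refine ⟨⟨z, hzC⟩, ?_⟩
      apply Quotient.sound
      change (⟨mk ℂ z (hne ⟨z, hzC⟩), (mk_mem_DD _).mpr (hf ⟨z, hzC⟩)⟩ : DD) ∈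
        MulAction.orbit GG p
      refine ⟨⟨hom g, ⟨g, hg, rfl⟩⟩, ?_⟩
      apply Subtype.ext
      exact h1
  exact hsurj.compactSpace hψ

/-! ### Topology of `ℂℙ³` -/

lemma isQuotientMap_mk :
    Topology.IsQuotientMap (fun z : {z : Fin 4 → ℂ // z ≠ 0} => (mk ℂ z.1 z.2 : CP3)) :=
  isQuotientMap_quotient_mk'

lemma sum_conj_ne {z : Fin 4 → ℂ} (hz : z ≠ 0) : ∑ k, z k * conj (z k) ≠ 0 := by
  have h1 : ∑ k, z k * conj (z k) = ((∑ k, ‖z k‖ ^ 2 : ℝ) : ℂ) := by
    push_cast
    apply Finset.sum_congr rfl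
    intro k _
    rw [Complex.mul_conj, Complex.normSq_eq_norm_sq]
    push_cast
    rfl
  rw [h1]
  obtain ⟨k, hk⟩ := Function.ne_iff.mp hz
  have h2 : 0 < ∑ k, ‖z k‖ ^ 2 := by
    apply lt_of_lt_of_le _ (Finset.single_le_sum (f := fun k => ‖z k‖ ^ 2)
      (fun _ _ => by positivity) (Finset.mem_univ k))
    have : 0 < ‖z k‖ := norm_pos_iff.mpr hk
    positivity
  exact_mod_cast h2.ne'

/-- `[z] ↦ z \bar z^T / |z|²` -/
noncomputable def em : CP3 → Fin 4 → Fin 4 → ℂ :=
  Projectivization.lift (fun z => fun i j => z.1 i * conj (z.1 j) / ∑ k, z.1 k * conj (z.1 k)) (by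
    rintro ⟨a, ha⟩ ⟨b, hb⟩ t h
    simp only at h
    subst h
    have ht : t ≠ 0 := by
      rintro rfl
      simp at ha
    have ht' : conj t ≠ 0 := (map_ne_zero _).mpr ht
    funext i j
    have h1 : ∑ k, (t • b) k * conj ((t • b) k) = (t * conj t) * ∑ k, b k * conj (b k) := by
      rw [Finset.mul_sum]
      apply Finset.sum_congr rfl
      intro k _
      simp only [Pi.smul_apply, smul_eq_mul, map_mul]
      ring
    have h2 := sum_conj_ne hb
    simp only
    rw [h1]
    simp only [Pi.smul_apply, smul_eq_mul, map_mul]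
    field_simp)

lemma em_mk {z : Fin 4 → ℂ} (hz : z ≠ 0) (i j : Fin 4) :
    em (mk ℂ z hz) i j = z i * conj (z j) / ∑ k, z k * conj (z k) := rfl

lemma continuous_em : Continuous em := by
  rw [isQuotientMap_mk.continuous_iff]
  rw [continuous_pi_iff]
  intro i
  rw [continuous_pi_iff]
  intro j
  have hc : ∀ k : Fin 4, Continuous (fun z : {z : Fin 4 → ℂ // z ≠ 0} => z.1 k) := fun k =>
    (continuous_apply k).comp continuous_subtype_val
  apply Continuous.div
  · exact (hc i).mul (Complex.continuous_conj.comp (hc j))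
  · exact continuous_finsetSum _ fun k _ => (hc k).mul (Complex.continuous_conj.comp (hc k))
  · intro z
    exact sum_conj_ne z.2

lemma em_injective : Function.Injective em := by
  intro p q h
  induction p using ind with
  | h z hz =>
    induction q using ind with
    | h y hy =>
      obtain ⟨j, hj⟩ := Function.ne_iff.mp hy
      simp only [Pi.zero_apply] at hj
      have hj' : conj (y j) ≠ 0 := (map_ne_zero _).mpr hj
      have hz' := sum_conj_ne hz
      have hy' := sum_conj_ne hy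
      have h1 : ∀ i, z i * conj (z j) * ∑ k, y k * conj (y k) =
          y i * conj (y j) * ∑ k, z k * conj (z k) := by
        intro i
        have := congrFun (congrFun h i) j
        rw [em_mk, em_mk, div_eq_div_iff hz' hy'] at this
        exact this
      have hzj : conj (z j) ≠ 0 := by
        intro h0
        have h2 := h1 j
        rw [h0, mul_zero, zero_mul] at h2
        exact (mul_ne_zero (mul_ne_zero hj hj') hz') h2.symm
      rw [mk_eq_mk_iff']
      refine ⟨conj (y j) * (∑ k, z k * conj (z k)) / (conj (z j) * ∑ k, y k * conj (y k)), ?_⟩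
      funext i
      simp only [Pi.smul_apply, smul_eq_mul]
      rw [div_mul_eq_mul_div, div_eq_iff (mul_ne_zero hzj hy')]
      linear_combination -(h1 i)

instance : T2Space CP3 := T2Space.of_injective_continuous em_injective continuous_em

instance : CompactSpace CP3 := by
  let S : Set (Fin 4 → ℂ) := Metric.sphere 0 1
  have hS : CompactSpace S := isCompact_iff_compactSpace.mp (isCompact_sphere 0 1)
  have hne : ∀ z : S, z.1 ≠ 0 := by
    intro z h
    have := z.2
    rw [mem_sphere_zero_iff_norm, h, norm_zero] at this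
    exact zero_ne_one this
  let φ : S → CP3 := fun z => mk ℂ z.1 (hne z)
  have hφ : Continuous φ :=
    continuous_mk.comp (f := fun z : S => (⟨z.1, hne z⟩ : {z : Fin 4 → ℂ // z ≠ 0}))
      (continuous_subtype_val.subtype_mk _)
  have hsurj : Function.Surjective φ := by
    intro p
    induction p using ind with
    | h z hz =>
      have hn : ‖z‖ ≠ 0 := norm_ne_zero_iff.mpr hz
      have hn' : ((‖z‖ : ℝ) : ℂ) ≠ 0 := by exact_mod_cast hn
      refine ⟨⟨((‖z‖ : ℝ) : ℂ)⁻¹ • z, ?_⟩, ?_⟩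
      · rw [mem_sphere_zero_iff_norm, norm_smul, norm_inv, Complex.norm_real, norm_norm,
          inv_mul_cancel₀ hn]
      · simp only [φ]
        rw [mk_eq_mk_iff']
        exact ⟨((‖z‖ : ℝ) : ℂ)⁻¹, rfl⟩
  exact hsurj.compactSpace hφ

instance : LocallyCompactSpace DD := isOpen_DD.isOpenEmbedding_subtypeVal.locallyCompactSpace

lemma continuous_actP (g : SL2) : Continuous (actP g) := by
  rw [isQuotientMap_mk.continuous_iff]
  exact continuous_mk.comp (f := fun z : {z : Fin 4 → ℂ // z ≠ 0} =>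
    (⟨rho g z.1, rho_ne g z.2⟩ : {z : Fin 4 → ℂ // z ≠ 0}))
    (((rho g).toContinuousLinearMap.continuous.comp continuous_subtype_val).subtype_mk _)

instance : ContinuousConstSMul GG DD where
  continuous_const_smul := by
    rintro ⟨γ, g, hg, rfl⟩
    exact ((continuous_actP g).comp continuous_subtype_val).subtype_mk _

instance : ProperlyDiscontinuousSMul GG DD where
  finite_disjoint_inter_image := by
    intro K L hK hL
    have h := proper (K ∪ L) (hK.union hL)
    apply Set.Finite.of_finite_image (f := fun γ : GG => (γ : Equiv.Perm DD))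
    · apply h.subset
      rintro _ ⟨γ, ⟨q, ⟨p, hp, hpq⟩, hq⟩, rfl⟩
      exact ⟨γ.2, q, ⟨p, Or.inl hp, hpq⟩, Or.inr hq⟩
    · exact Subtype.val_injective.injOn

lemma t2Quotient : T2Space (Quotient (MulAction.orbitRel GG DD)) := inferInstance

/-- **Disproof of Q1.** There is a domain `D ⊂ ℂℙ³` which covers a compact complex threefold and
whose complement `Λ = ℂℙ³ ∖ D` is a connected embedded real analytic submanifold of real dimension
four (so that `Λ` is its own unique sheet and component), such that the CR dimension of `Λ` is not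
constant: it is `1` at some points of `Λ` and `2` at others. Hence the component `Λ` is neither a
complex hypersurface nor a CR submanifold. -/
theorem result :
    ∃ D : Set CP3, IsOpen D ∧ IsConnected D ∧ CoversCompactThreefold D ∧
      IsConnected Dᶜ ∧ IsSubmanifoldOfDimFour ω Dᶜ ∧
      (∃ z ∈ cone Dᶜ, HasCRDimensionAt Dᶜ z 1) ∧ (∃ z ∈ cone Dᶜ, HasCRDimensionAt Dᶜ z 2) :=
  ⟨DD, isOpen_DD, isConnected_DD, ⟨GG, holo, free, proper, compactQuotient, t2Quotient⟩,
    isConnected_compl, isSubmanifold, ⟨z1, z1_mem, crdim_z1⟩, ⟨z2, z2_mem, crdim_z2⟩⟩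

end Pool.Agent.Results.MP_17cb1b_an.CRJump
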